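import Pool.Agent.TH185.C.Defs

/-! The genus. -/

open scoped WithZero Matrix

namespace Pool.Agent.TH185.C

section Genus

variable (𝕜 K : Type) [Field 𝕜] [Field K] [Algebra 𝕜 K]

/-- The space `R` of repartitions: families `(r_v)` of elements of `K`, indexed by the closed points
`v` of the curve, with `r_v ∈ 𝒪_v` for all but finitely many `v`. -/
def repartitions : Submodule 𝕜 (Point 𝕜 K → K) where
  carrier := {r | {v : Point 𝕜 K | ¬ v.val (r v) ≤ 1}.Finite}
  add_mem' := by
    intro a b ha hb
    refine (ha.union hb).subset fun v hv => ?_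
    by_contra hcon
    simp only [Set.mem_union, Set.mem_ofPred_eq, not_or, not_not] at hcon
    exact hv (Valuation.map_add_le _ hcon.1 hcon.2)
  zero_mem' := Set.finite_empty.subset fun v hv => hv (by simp)
  smul_mem' := by
    intro c a ha
    refine ha.subset fun v hv h => hv ?_
    rw [Pi.smul_apply, Algebra.smul_def, map_mul]
    exact mul_le_one' (v.const_le c) h

/-- The space `R(0)` of families `(r_v)` with `r_v ∈ 𝒪_v` for all `v`. -/
def integralRepartitions : Submodule 𝕜 (Point 𝕜 K → K) where
  carrier := {r | ∀ v : Point 𝕜 K, v.val (r v) ≤ 1}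
  add_mem' := fun ha hb v => Valuation.map_add_le _ (ha v) (hb v)
  zero_mem' := fun v => by simp
  smul_mem' := by
    intro c a ha v
    rw [Pi.smul_apply, Algebra.smul_def, map_mul]
    exact mul_le_one' (v.const_le c) (ha v)

/-- The space of constant families, which is `K`. -/
def principalRepartitions : Submodule 𝕜 (Point 𝕜 K → K) where
  carrier := {r | ∃ f : K, ∀ v : Point 𝕜 K, r v = f}
  add_mem' := by
    rintro a b ⟨f, hf⟩ ⟨g, hg⟩
    exact ⟨f + g, fun v => by rw [Pi.add_apply, hf v, hg v]⟩
  zero_mem' := ⟨0, fun v => rfl⟩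
  smul_mem' := by
    rintro c a ⟨f, hf⟩
    exact ⟨c • f, fun v => by rw [Pi.smul_apply, hf v]⟩

/-- The genus of the curve, `dim H¹(X, 𝒪_X)`, where `H¹(X, 𝒪_X) = R / (R(0) + K)`
(Serre, Groupes algébriques et corps de classes, II.5). -/
noncomputable def genus : ℕ :=
  Module.finrank 𝕜 (↥(repartitions 𝕜 K) ⧸
    (integralRepartitions 𝕜 K ⊔ principalRepartitions 𝕜 K).comap (repartitions 𝕜 K).subtype)

end Genus

end Pool.Agent.TH185.C
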