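import Pool.Agent.TH185.C.Chi

open scoped WithZero Matrix
open WithZero

set_option linter.unusedSectionVars false

namespace Pool.Agent.TH185.C


variable {𝕜 K : Type} [Field 𝕜] [IsAlgClosed 𝕜] [Field K] [Algebra 𝕜 K] {n m : ℕ}

open Classical in
/-- the modification of `E` at `v` -/
noncomputable def modify (E : Bundle 𝕜 K n) (v : Point 𝕜 K) (c : Fin n → 𝕜) (i : Fin n)
    (hi : c i ≠ 0) : Bundle 𝕜 K n where
  frame w := if w = v then E.frame v * (modGL v c i hi)⁻¹ else E.frame w
  finite := by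
    refine (E.finite.union (Set.finite_singleton v)).subset fun w hw => ?_
    by_contra hcon
    simp only [Set.mem_union, Set.mem_ofPred_eq, Set.mem_singleton_iff, not_or, not_not] at hcon
    apply hw
    rw [if_neg hcon.2]
    exact hcon.1

open Classical in
theorem modify_stalk_of_ne (E : Bundle 𝕜 K n) (v : Point 𝕜 K) (c : Fin n → 𝕜) (i : Fin n)
    (hi : c i ≠ 0) {w : Point 𝕜 K} (hw : w ≠ v) : (modify E v c i hi).stalk w = E.stalk w := by
  ext s
  rw [mem_stalk_iff, mem_stalk_iff]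
  change w.Reg ((if w = v then E.frame v * (modGL v c i hi)⁻¹ else E.frame w)⁻¹.1 *ᵥ s) ↔ _
  rw [if_neg hw]

open Classical in
theorem mem_modify_stalk (E : Bundle 𝕜 K n) (v : Point 𝕜 K) (c : Fin n → 𝕜) (i : Fin n)
    (hi : c i ≠ 0) (s : Fin n → K) : s ∈ (modify E v c i hi).stalk v ↔
      s ∈ E.stalk v ∧ v.val (∑ l, algebraMap 𝕜 K (c l) * ((E.frame v)⁻¹.1 *ᵥ s) l) < 1 := by
  rw [mem_stalk_iff]
  change v.Reg ((if v = v then E.frame v * (modGL v c i hi)⁻¹ else E.frame v)⁻¹.1 *ᵥ s) ↔ _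
  rw [if_pos rfl, mul_inv_rev, inv_inv, Units.val_mul, ← Matrix.mulVec_mulVec, modGL_reg_iff]
  rfl

theorem stalk_eq_of_degree_eq (hK : IsCurve 𝕜 K) {E' E : Bundle 𝕜 K n}
    (h : ∀ v s, s ∈ E'.stalk v → s ∈ E.stalk v) (hd : E'.degree = E.degree) (v : Point 𝕜 K) :
    E'.stalk v = E.stalk v := by
  have h1 := (degree_compare hK (E := E) (F := E') (A := 1) (fun v s hs => by
    rw [Units.val_one, Matrix.one_mulVec]; exact h v s hs)).2 hd v
  ext s
  have := h1 s
  rwa [Units.val_one, Matrix.one_mulVec] at this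

theorem degree_le_of_le (hK : IsCurve 𝕜 K) {E' E : Bundle 𝕜 K n}
    (h : ∀ v s, s ∈ E'.stalk v → s ∈ E.stalk v) : E'.degree ≤ E.degree :=
  (degree_compare hK (E := E) (F := E') (A := 1) (fun v s hs => by
    rw [Units.val_one, Matrix.one_mulVec]; exact h v s hs)).1

theorem degree_eq_of_stalk_eq (hK : IsCurve 𝕜 K) {E' E : Bundle 𝕜 K n}
    (h : ∀ v, E'.stalk v = E.stalk v) : E'.degree = E.degree :=
  le_antisymm (degree_le_of_le hK fun v s hs => by rwa [← h v])
    (degree_le_of_le hK fun v s hs => by rwa [h v])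

theorem modify_isElem (hK : IsCurve 𝕜 K) (E : Bundle 𝕜 K n) (v : Point 𝕜 K) (c : Fin n → 𝕜) (i : Fin n)
    (hi : c i ≠ 0) : IsElem (modify E v c i hi) E := by
  classical
  refine ⟨?_, ?_⟩
  · intro w s hs
    rcases eq_or_ne w v with rfl | hw
    · exact ((mem_modify_stalk E w c i hi s).1 hs).1
    · rwa [modify_stalk_of_ne E v c i hi hw] at hs
  · set e0 : Fin n → K := (E.frame v).1 *ᵥ (Pi.single i (algebraMap 𝕜 K (c i)⁻¹)) with he0
    have he0' : (E.frame v)⁻¹.1 *ᵥ e0 = Pi.single i (algebraMap 𝕜 K (c i)⁻¹) := by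
      rw [he0, gl_inv_mulVec]
    have hsum : ∀ a : K, ∑ l, algebraMap 𝕜 K (c l) *
        (Pi.single i a : Fin n → K) l = algebraMap 𝕜 K (c i) * a := by
      intro a
      rw [Finset.sum_eq_single i]
      · rw [Pi.single_eq_same]
      · intro b _ hb
        rw [Pi.single_eq_of_ne hb, mul_zero]
      · simp
    have he0E : e0 ∈ E.stalk v := by
      rw [mem_stalk_iff, he0']
      intro l
      rcases eq_or_ne l i with rfl | hl
      · rw [Pi.single_eq_same]; exact v.const_le _
      · rw [Pi.single_eq_of_ne hl]; simp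
    have hmem : ∀ w, (Pi.single v e0 : Point 𝕜 K → Fin n → K) w ∈ E.stalk w := by
      intro w
      rcases eq_or_ne w v with rfl | hw
      · rw [Pi.single_eq_same]; exact he0E
      · rw [Pi.single_eq_of_ne hw]; exact stalk_zero
    refine ⟨⟨Pi.single v e0, mem_AA_of_stalk E _ hmem⟩, hmem, ?_, ?_⟩
    · intro h
      have h1 := h v
      change (Pi.single v e0 : Point 𝕜 K → Fin n → K) v ∈ _ at h1
      rw [Pi.single_eq_same, mem_modify_stalk, he0', hsum, ← map_mul, mul_inv_cancel₀ hi,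
        map_one, map_one] at h1
      exact lt_irrefl _ h1.2
    · intro r hr
      have hreg : v.val (∑ l, algebraMap 𝕜 K (c l) * ((E.frame v)⁻¹.1 *ᵥ r.1 v) l) ≤ 1 := by
        refine Valuation.map_sum_le _ fun l _ => ?_
        rw [map_mul]
        exact mul_le_one' (v.const_le _) (hr v l)
      obtain ⟨d, hd⟩ := exists_res hK v hreg
      refine ⟨d, fun w => ?_⟩
      change r.1 w - d • (Pi.single v e0 : Point 𝕜 K → Fin n → K) w ∈ _
      rcases eq_or_ne w v with rfl | hw
      · rw [Pi.single_eq_same, mem_modify_stalk]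
        refine ⟨stalk_sub (hr w) (stalk_const_smul he0E d), ?_⟩
        rw [Matrix.mulVec_sub, Matrix.mulVec_smul, he0']
        simp only [Pi.sub_apply, Pi.smul_apply, mul_sub, Finset.sum_sub_distrib]
        have h2 : ∑ l, algebraMap 𝕜 K (c l) * d • (Pi.single i (algebraMap 𝕜 K (c i)⁻¹) :
            Fin n → K) l = algebraMap 𝕜 K d := by
          have h3 : ∀ l, algebraMap 𝕜 K (c l) * d • (Pi.single i (algebraMap 𝕜 K (c i)⁻¹) :
              Fin n → K) l = algebraMap 𝕜 K d * (algebraMap 𝕜 K (c l) *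
              (Pi.single i (algebraMap 𝕜 K (c i)⁻¹) : Fin n → K) l) := by
            intro l
            rw [Algebra.smul_def]
            ring
          rw [Finset.sum_congr rfl fun l _ => h3 l, ← Finset.mul_sum, hsum, ← map_mul,
            mul_inv_cancel₀ hi, map_one, mul_one]
        rw [h2]
        exact hd
      · rw [Pi.single_eq_of_ne hw, smul_zero, sub_zero, modify_stalk_of_ne E v c i hi hw]
        exact hr w

theorem modify_degree (E : Bundle 𝕜 K n) (v : Point 𝕜 K) (c : Fin n → 𝕜) (i : Fin n)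
    (hi : c i ≠ 0) : (modify E v c i hi).degree = E.degree - 1 := by
  classical
  have h1 : ∀ w : Point 𝕜 K, -w.ord ((modify E v c i hi).frame w).1.det =
      -w.ord (E.frame w).1.det - (if w = v then 1 else 0) := by
    intro w
    change -w.ord ((if w = v then E.frame v * (modGL v c i hi)⁻¹ else E.frame w)).1.det = _
    split_ifs with h
    · subst h
      rw [Units.val_mul, Matrix.det_mul, gl_inv_det, w.ord_mul (gl_det_ne_zero _)
        (inv_ne_zero (gl_det_ne_zero _)), w.ord_inv]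
      have h2 : w.ord (modGL w c i hi).1.det = -1 := by
        change w.ord (modMat w c i).det = -1
        rw [modMat_det, w.ord_mul (inv_ne_zero (unif_ne_zero w)) ((map_ne_zero _).2 hi), w.ord_inv,
          ord_unif, w.ord_const, add_zero]
      rw [h2]
      ring
    · ring
  rw [Bundle.degree, finsum_congr h1, finsum_sub_distrib]
  · rw [Bundle.degree]
    congr 1
    rw [finsum_eq_single _ v]
    · rw [if_pos rfl]
    · intro w hw
      rw [if_neg hw]
  · refine E.finite_det.subset fun w hw => ?_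
    rw [Function.mem_support, neg_ne_zero] at hw
    exact hw
  · refine (Set.finite_singleton v).subset fun w hw => ?_
    rw [Function.mem_support] at hw
    by_contra h
    exact hw (if_neg h)

/-- between two distinct nested bundles there is an elementary modification -/
theorem exists_modify (hK : IsCurve 𝕜 K) {E' E : Bundle 𝕜 K n}
    (h : ∀ v s, s ∈ E'.stalk v → s ∈ E.stalk v) (hne : E'.degree ≠ E.degree) :
    ∃ E₁ : Bundle 𝕜 K n, IsElem E₁ E ∧ E₁.degree = E.degree - 1 ∧
      ∀ v s, s ∈ E'.stalk v → s ∈ E₁.stalk v := by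
  have h1 : ∃ v, ∃ s ∈ E.stalk v, s ∉ E'.stalk v := by
    by_contra hcon
    push Not at hcon
    exact hne (degree_eq_of_stalk_eq hK fun v => Set.Subset.antisymm (h v) (hcon v))
  obtain ⟨v, s, hs, hs'⟩ := h1
  set M : GL (Fin n) K := (E.frame v)⁻¹ * E'.frame v with hM
  have hMreg : v.RegM M.1 := by
    apply v.regM_of_forall
    intro w hw
    have := h v _ (frame_mulVec_mem E' v hw)
    rwa [mem_stalk_iff, Matrix.mulVec_mulVec] at this
  have hdet : v.val M.1.det < 1 := by
    refine lt_of_le_of_ne (v.val_det_le_one _ hMreg) fun h2 => hs' ?_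
    have h3 := hMreg.inv h2
    have h4 : (E'.frame v)⁻¹.1 *ᵥ s = M⁻¹.1 *ᵥ ((E.frame v)⁻¹.1 *ᵥ s) := by
      rw [Matrix.mulVec_mulVec, ← Units.val_mul]
      congr 2
      rw [hM]
      group
    rw [mem_stalk_iff, h4]
    exact h3.mulVec hs
  obtain ⟨c, hc0, hc⟩ := exists_singular hK v M.1 hMreg hdet
  obtain ⟨i, hi⟩ := Function.ne_iff.1 hc0
  refine ⟨modify E v c i hi, modify_isElem hK E v c i hi, modify_degree E v c i hi, ?_⟩
  intro w t ht
  rcases eq_or_ne w v with rfl | hw
  · rw [mem_modify_stalk]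
    refine ⟨h w t ht, ?_⟩
    have h5 := hc ((E'.frame w)⁻¹.1 *ᵥ t) ht
    have h6 : M.1 *ᵥ ((E'.frame w)⁻¹.1 *ᵥ t) = (E.frame w)⁻¹.1 *ᵥ t := by
      rw [Matrix.mulVec_mulVec, ← Units.val_mul]
      congr 2
      rw [hM]
      group
    rwa [h6] at h5
  · rw [modify_stalk_of_ne E v c i hi hw]
    exact h w t ht

theorem hasChi_congr {E' E : Bundle 𝕜 K n} (h : ∀ v, E'.stalk v = E.stalk v) (χ : ℤ) :
    HasChi E' χ ↔ HasChi E χ := by
  have h1 : E'.sections = E.sections := by
    ext s
    change (∀ v, s ∈ E'.stalk v) ↔ (∀ v, s ∈ E.stalk v)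
    simp only [h]
  have h2 : Om E' = Om E := by
    ext l
    change _ ∧ _ ↔ _ ∧ _
    simp only [h]
  rw [HasChi, HasChi, h1, h2]

theorem chain (hK : IsCurve 𝕜 K) (N : ℕ) : ∀ E' E : Bundle 𝕜 K n,
    (∀ v s, s ∈ E'.stalk v → s ∈ E.stalk v) → E.degree - E'.degree = N →
    ∀ χ, HasChi E' χ ↔ HasChi E (χ + N) := by
  induction N with
  | zero =>
    intro E' E h hd χ
    rw [Nat.cast_zero, add_zero]
    exact hasChi_congr (stalk_eq_of_degree_eq hK h (by push_cast at hd; omega)) χ
  | succ N ih =>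
    intro E' E h hd χ
    obtain ⟨E₁, h1, h2, h3⟩ := exists_modify hK h (by push_cast at hd; omega)
    rw [ih E' E₁ h3 (by push_cast at hd; omega) χ, step hK h1]
    push_cast
    rw [add_assoc]

/-- a common sublattice of two bundles -/
theorem exists_common (E F : Bundle 𝕜 K n) : ∃ G : Bundle 𝕜 K n,
    (∀ v s, s ∈ G.stalk v → s ∈ E.stalk v) ∧ (∀ v s, s ∈ G.stalk v → s ∈ F.stalk v) := by
  classical
  -- a small element at each point
  have key : ∀ (v : Point 𝕜 K) (M : Matrix (Fin n) (Fin n) K), ∃ k : ℕ, ∀ l : ℕ, k ≤ l →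
      v.RegM ((unif v) ^ l • M) := by
    intro v M
    have h1 : ∀ z : K, ∃ k : ℕ, ∀ l : ℕ, k ≤ l → v.val ((unif v) ^ l * z) ≤ 1 := by
      intro z
      rcases eq_or_ne z 0 with rfl | hz
      · exact ⟨0, fun l _ => by simp⟩
      · refine ⟨(-v.ord z).toNat, fun l hl => ?_⟩
        rw [v.val_le_one_iff (mul_ne_zero (pow_ne_zero _ (unif_ne_zero v)) hz),
          v.ord_mul (pow_ne_zero _ (unif_ne_zero v)) hz, v.ord_pow, ord_unif]
        omega
    choose k hk using h1
    refine ⟨∑ i, ∑ j, k (M i j), fun l hl i j => ?_⟩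
    rw [Matrix.smul_apply, smul_eq_mul]
    apply hk
    refine le_trans ?_ hl
    exact (Finset.single_le_sum (f := fun j => k (M i j)) (fun _ _ => Nat.zero_le _)
      (Finset.mem_univ j)).trans (Finset.single_le_sum (f := fun i => ∑ j, k (M i j))
        (fun _ _ => Nat.zero_le _) (Finset.mem_univ i))
  have key2 : ∀ v : Point 𝕜 K, ∃ l : ℕ, v.RegM ((unif v) ^ l • (E.frame v)⁻¹.1) ∧
      v.RegM ((unif v) ^ l • (F.frame v)⁻¹.1) := by
    intro v
    obtain ⟨k1, hk1⟩ := key v (E.frame v)⁻¹.1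
    obtain ⟨k2, hk2⟩ := key v (F.frame v)⁻¹.1
    exact ⟨max k1 k2, hk1 _ (le_max_left _ _), hk2 _ (le_max_right _ _)⟩
  choose l hl using key2
  let good : Point 𝕜 K → Prop := fun v => v.RegM (E.frame v)⁻¹.1 ∧ v.RegM (F.frame v)⁻¹.1
  let a : Point 𝕜 K → ℕ := fun v => if good v then 0 else l v
  have ha : ∀ v : Point 𝕜 K, v.RegM ((unif v) ^ a v • (E.frame v)⁻¹.1) ∧
      v.RegM ((unif v) ^ a v • (F.frame v)⁻¹.1) := by
    intro v
    by_cases h : good v
    · simp only [a, if_pos h, pow_zero, one_smul]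
      exact h
    · simp only [a, if_neg h]
      exact hl v
  have hdet : ∀ v : Point 𝕜 K, (Matrix.diagonal fun _ : Fin n => (unif v) ^ a v).det ≠ 0 := by
    intro v
    rw [Matrix.det_diagonal]
    exact Finset.prod_ne_zero_iff.2 fun _ _ => pow_ne_zero _ (unif_ne_zero v)
  let G : Bundle 𝕜 K n :=
    { frame := fun v => Matrix.GeneralLinearGroup.mkOfDetNeZero _ (hdet v)
      finite := by
        refine (E.finite.union F.finite).subset fun v hv => ?_
        by_contra hcon
        simp only [Set.mem_union, Set.mem_ofPred_eq, not_or, not_not] at hcon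
        have hgood : good v := ⟨hcon.1.2, hcon.2.2⟩
        have h1 : Matrix.GeneralLinearGroup.mkOfDetNeZero _ (hdet v) = (1 : GL (Fin n) K) := by
          apply Units.ext
          change (Matrix.diagonal fun _ : Fin n => (unif v) ^ a v) = 1
          simp only [a, if_pos hgood, pow_zero]
          exact Matrix.diagonal_one
        apply hv
        rw [h1, inv_one]
        exact ⟨Point.RegM.one, Point.RegM.one⟩ }
  have hG : ∀ v s, s ∈ G.stalk v → ∃ t, v.Reg t ∧ s = (unif v) ^ a v • t := by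
    intro v s hs
    refine ⟨(G.frame v)⁻¹.1 *ᵥ s, hs, ?_⟩
    have h1 := gl_mulVec_inv (G.frame v) s
    change (Matrix.diagonal fun _ : Fin n => (unif v) ^ a v) *ᵥ ((G.frame v)⁻¹.1 *ᵥ s) = s at h1
    conv_lhs => rw [← h1]
    ext i
    rw [Matrix.mulVec_diagonal]
    rfl
  refine ⟨G, ?_, ?_⟩
  · intro v s hs
    obtain ⟨t, ht, rfl⟩ := hG v s hs
    rw [mem_stalk_iff, Matrix.mulVec_smul, ← Matrix.smul_mulVec]
    exact (ha v).1.mulVec ht
  · intro v s hs
    obtain ⟨t, ht, rfl⟩ := hG v s hs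
    rw [mem_stalk_iff, Matrix.mulVec_smul, ← Matrix.smul_mulVec]
    exact (ha v).2.mulVec ht

/-- the Euler characteristic depends only on the degree -/
theorem hasChi_of_hasChi (hK : IsCurve 𝕜 K) {E F : Bundle 𝕜 K n} {χ : ℤ} (h : HasChi E χ) :
    HasChi F (χ + F.degree - E.degree) := by
  obtain ⟨G, hGE, hGF⟩ := exists_common E F
  have h1 := degree_le_of_le hK hGE
  have h2 := degree_le_of_le hK hGF
  have h3 := (chain hK (E.degree - G.degree).toNat G E hGE (by omega)
    (χ - (E.degree - G.degree))).2 (by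
      convert h using 1
      omega)
  have h4 := (chain hK (F.degree - G.degree).toNat G F hGF (by omega) _).1 h3
  convert h4 using 1
  omega

end Pool.Agent.TH185.C
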