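import Pool.Agent.TH185.C.Residue

open scoped WithZero Matrix
open WithZero

set_option linter.unusedSectionVars false

namespace Pool.Agent.TH185.C


/-! ### linear algebra -/

section LA

variable {𝕜 : Type} [Field 𝕜] {V : Type*} [AddCommGroup V] [Module 𝕜 V] {N P : Submodule 𝕜 V}

theorem finrank_succ_aux (hNP : N ≤ P) {x : V} (hx : x ∈ P) (hxN : x ∉ N)
    (h : ∀ p ∈ P, ∃ c : 𝕜, p - c • x ∈ N) :
    (FiniteDimensional 𝕜 N ↔ FiniteDimensional 𝕜 P) ∧
      (FiniteDimensional 𝕜 P → Module.finrank 𝕜 P = Module.finrank 𝕜 N + 1) := by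
  have hP : P = N ⊔ Submodule.span 𝕜 {x} := by
    apply le_antisymm
    · intro p hp
      obtain ⟨c, hc⟩ := h p hp
      rw [Submodule.mem_sup]
      exact ⟨_, hc, c • x, Submodule.smul_mem _ _ (Submodule.mem_span_singleton_self x),
        sub_add_cancel _ _⟩
    · exact sup_le hNP (by rwa [Submodule.span_singleton_le_iff_mem])
  have hx0 : x ≠ 0 := by
    rintro rfl
    exact hxN (zero_mem _)
  have hiff : FiniteDimensional 𝕜 N ↔ FiniteDimensional 𝕜 P := by
    constructor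
    · intro hN
      rw [hP]
      infer_instance
    · intro hP'
      exact Submodule.finiteDimensional_of_le hNP
  refine ⟨hiff, fun hfin => ?_⟩
  have hN := hiff.2 hfin
  have h1 := Submodule.finrank_sup_add_finrank_inf_eq N (Submodule.span 𝕜 {x})
  have h2 : N ⊓ Submodule.span 𝕜 {x} = ⊥ := by
    rw [eq_bot_iff]
    rintro y ⟨hy1, hy2⟩
    obtain ⟨c, rfl⟩ := Submodule.mem_span_singleton.1 hy2
    rcases eq_or_ne c 0 with rfl | hc
    · simp
    · exfalso
      apply hxN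
      have := N.smul_mem c⁻¹ hy1
      rwa [smul_smul, inv_mul_cancel₀ hc, one_smul] at this
  rw [h2, finrank_bot, add_zero, finrank_span_singleton hx0, ← hP] at h1
  exact h1

end LA

variable {𝕜 K : Type} [Field 𝕜] [IsAlgClosed 𝕜] [Field K] [Algebra 𝕜 K] {n m : ℕ}

theorem Reg.add {v : Point 𝕜 K} {s t : Fin n → K} (hs : v.Reg s) (ht : v.Reg t) : v.Reg (s + t) :=
  fun i => Valuation.map_add_le _ (hs i) (ht i)

theorem Reg.const_smul {v : Point 𝕜 K} {s : Fin n → K} (hs : v.Reg s) (c : 𝕜) : v.Reg (c • s) := by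
  intro i
  rw [Pi.smul_apply, Algebra.smul_def, map_mul]
  exact mul_le_one' (v.const_le c) (hs i)

variable (𝕜 K n) in
/-- adeles of rank `n` -/
def AA : Submodule 𝕜 (Point 𝕜 K → Fin n → K) where
  carrier := {r | {v : Point 𝕜 K | ¬ v.Reg (r v)}.Finite}
  add_mem' := by
    intro a b ha hb
    refine (ha.union hb).subset fun v hv => ?_
    by_contra hcon
    simp only [Set.mem_union, Set.mem_ofPred_eq, not_or, not_not] at hcon
    exact hv (Reg.add hcon.1 hcon.2)
  zero_mem' := Set.finite_empty.subset fun v hv => hv fun i => by simp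
  smul_mem' := by
    intro c a ha
    exact ha.subset fun v hv h => hv (Reg.const_smul h c)

theorem stalk_add {E : Bundle 𝕜 K n} {v : Point 𝕜 K} {s t : Fin n → K} (hs : s ∈ E.stalk v)
    (ht : t ∈ E.stalk v) : s + t ∈ E.stalk v := by
  rw [mem_stalk_iff, Matrix.mulVec_add]
  exact Reg.add hs ht

theorem stalk_zero {E : Bundle 𝕜 K n} {v : Point 𝕜 K} : (0 : Fin n → K) ∈ E.stalk v := by
  rw [mem_stalk_iff, Matrix.mulVec_zero]
  intro i
  simp

theorem stalk_smul {E : Bundle 𝕜 K n} {v : Point 𝕜 K} {s : Fin n → K} (hs : s ∈ E.stalk v) {a : K}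
    (ha : v.val a ≤ 1) : a • s ∈ E.stalk v := by
  rw [mem_stalk_iff, Matrix.mulVec_smul]
  intro i
  rw [Pi.smul_apply, smul_eq_mul, map_mul]
  exact mul_le_one' ha (hs i)

theorem stalk_const_smul {E : Bundle 𝕜 K n} {v : Point 𝕜 K} {s : Fin n → K} (hs : s ∈ E.stalk v)
    (c : 𝕜) : c • s ∈ E.stalk v := by
  rw [← algebraMap_smul K c s]
  exact stalk_smul hs (v.const_le c)

theorem stalk_neg {E : Bundle 𝕜 K n} {v : Point 𝕜 K} {s : Fin n → K} (hs : s ∈ E.stalk v) :
    -s ∈ E.stalk v := by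
  have := stalk_const_smul hs (-1)
  simpa using this

theorem stalk_sub {E : Bundle 𝕜 K n} {v : Point 𝕜 K} {s t : Fin n → K} (hs : s ∈ E.stalk v)
    (ht : t ∈ E.stalk v) : s - t ∈ E.stalk v := by
  rw [sub_eq_add_neg]
  exact stalk_add hs (stalk_neg ht)

theorem mem_AA_of_stalk (E : Bundle 𝕜 K n) (r : Point 𝕜 K → Fin n → K)
    (hr : ∀ v, r v ∈ E.stalk v) : r ∈ AA 𝕜 K n := by
  refine E.finite.subset fun v hv h => hv ?_
  have h1 := Point.RegM.mulVec (M := (E.frame v).1) h.1 (hr v)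
  rwa [gl_mulVec_inv] at h1

theorem diag_mem_AA (hK : IsCurve 𝕜 K) (s : Fin n → K) : (fun _ => s) ∈ AA 𝕜 K n := by
  have : {v : Point 𝕜 K | ¬ v.Reg s} = ⋃ i, {v : Point 𝕜 K | ¬ v.val (s i) ≤ 1} := by
    ext v
    simp [Point.Reg]
  change {v : Point 𝕜 K | ¬ v.Reg s}.Finite
  rw [this]
  exact Set.finite_iUnion fun i => finite_not_reg hK _

/-- the functionals on the adeles which vanish on `K ^ n` and on the adeles of `E`; this is the dual
of `H¹(E)` -/
def Om (E : Bundle 𝕜 K n) : Submodule 𝕜 (Module.Dual 𝕜 (AA 𝕜 K n)) where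
  carrier := {l | (∀ r : AA 𝕜 K n, (∃ s, ∀ v, r.1 v = s) → l r = 0) ∧
    ∀ r : AA 𝕜 K n, (∀ v, r.1 v ∈ E.stalk v) → l r = 0}
  add_mem' := by
    rintro a b ⟨ha, ha'⟩ ⟨hb, hb'⟩
    exact ⟨fun r hr => by rw [LinearMap.add_apply, ha r hr, hb r hr, add_zero],
      fun r hr => by rw [LinearMap.add_apply, ha' r hr, hb' r hr, add_zero]⟩
  zero_mem' := ⟨fun _ _ => rfl, fun _ _ => rfl⟩
  smul_mem' := by
    rintro c a ⟨ha, ha'⟩
    exact ⟨fun r hr => by rw [LinearMap.smul_apply, ha r hr, smul_zero],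
      fun r hr => by rw [LinearMap.smul_apply, ha' r hr, smul_zero]⟩

/-- `E₁ ⊆ E` is an elementary modification -/
structure IsElem (E₁ E : Bundle 𝕜 K n) : Prop where
  le : ∀ v s, s ∈ E₁.stalk v → s ∈ E.stalk v
  ex : ∃ e : AA 𝕜 K n, (∀ v, e.1 v ∈ E.stalk v) ∧ ¬ (∀ v, e.1 v ∈ E₁.stalk v) ∧
    ∀ r : AA 𝕜 K n, (∀ v, r.1 v ∈ E.stalk v) → ∃ c : 𝕜, ∀ v, r.1 v - c • e.1 v ∈ E₁.stalk v

/-- the Euler characteristic of `E` is `χ` -/
def HasChi (E : Bundle 𝕜 K n) (χ : ℤ) : Prop :=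
  FiniteDimensional 𝕜 E.sections ∧ FiniteDimensional 𝕜 (Om E) ∧
    (Module.finrank 𝕜 E.sections : ℤ) - Module.finrank 𝕜 (Om E) = χ

theorem step (hK : IsCurve 𝕜 K) {E₁ E : Bundle 𝕜 K n} (h : IsElem E₁ E) (χ : ℤ) :
    HasChi E₁ χ ↔ HasChi E (χ + 1) := by
  obtain ⟨e, he, he₁, hdec⟩ := h.ex
  have hle : E₁.sections ≤ E.sections := fun s hs v => h.le v s (hs v)
  have hOm : Om E ≤ Om E₁ := fun l hl => ⟨hl.1, fun r hr => hl.2 r fun v => h.le v _ (hr v)⟩
  by_cases hcase : ∃ s ∈ E.sections, s ∉ E₁.sections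
  · obtain ⟨s, hs, hs₁⟩ := hcase
    obtain ⟨cs, hcs⟩ := hdec ⟨fun _ => s, diag_mem_AA hK s⟩ hs
    have hcs0 : cs ≠ 0 := by
      rintro rfl
      apply hs₁
      intro v
      have := hcs v
      rwa [zero_smul, sub_zero] at this
    have h1 := finrank_succ_aux hle hs hs₁ (fun p hp => by
      obtain ⟨c, hc⟩ := hdec ⟨fun _ => p, diag_mem_AA hK p⟩ hp
      refine ⟨c * cs⁻¹, fun v => ?_⟩
      have h2 : p - (c * cs⁻¹) • s = (p - c • e.1 v) - (c * cs⁻¹) • (s - cs • e.1 v) := by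
        rw [smul_sub, smul_smul, mul_assoc, inv_mul_cancel₀ hcs0, mul_one]
        abel
      rw [h2]
      exact stalk_sub (hc v) (stalk_const_smul (hcs v) _))
    have h3 : Om E₁ = Om E := by
      refine le_antisymm (fun l hl => ⟨hl.1, fun r hr => ?_⟩) hOm
      have hle : l e = 0 := by
        have h4 : l (⟨fun _ => s, diag_mem_AA hK s⟩ - cs • e) = 0 := hl.2 _ hcs
        rw [map_sub, hl.1 _ ⟨s, fun _ => rfl⟩, zero_sub, neg_eq_zero, map_smul, smul_eq_mul] at h4
        exact (mul_eq_zero.1 h4).resolve_left hcs0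
      obtain ⟨c, hc⟩ := hdec r hr
      have h5 : l (r - c • e) = 0 := hl.2 _ hc
      rw [map_sub, map_smul, hle, smul_zero, sub_zero] at h5
      exact h5
    unfold HasChi
    rw [h3, h1.1]
    constructor
    · rintro ⟨a, b, c⟩
      refine ⟨a, b, ?_⟩
      rw [h1.2 a]
      push_cast
      omega
    · rintro ⟨a, b, c⟩
      refine ⟨a, b, ?_⟩
      rw [h1.2 a] at c
      push_cast at c
      omega
  · push Not at hcase
    have h1 : E₁.sections = E.sections := le_antisymm hle hcase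
    -- the subspace `K ^ n + E₁(A)`
    let W : Submodule 𝕜 (AA 𝕜 K n) :=
      { carrier := {r | ∃ s : Fin n → K, ∀ v, r.1 v - s ∈ E₁.stalk v}
        add_mem' := by
          rintro a b ⟨s, hs⟩ ⟨t, ht⟩
          refine ⟨s + t, fun v => ?_⟩
          have : (a + b).1 v - (s + t) = (a.1 v - s) + (b.1 v - t) := by
            change a.1 v + b.1 v - (s + t) = _
            abel
          rw [this]
          exact stalk_add (hs v) (ht v)
        zero_mem' := ⟨0, fun v => by
          change (0 : Fin n → K) - 0 ∈ _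
          rw [sub_zero]; exact stalk_zero⟩
        smul_mem' := by
          rintro c a ⟨s, hs⟩
          refine ⟨c • s, fun v => ?_⟩
          have : (c • a).1 v - c • s = c • (a.1 v - s) := by
            change c • a.1 v - c • s = _
            rw [smul_sub]
          rw [this]
          exact stalk_const_smul (hs v) c }
    have heW : e ∉ W := by
      rintro ⟨s, hs⟩
      have hsE : s ∈ E.sections := by
        intro v
        have h2 : s = e.1 v - (e.1 v - s) := by abel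
        rw [h2]
        exact stalk_sub (he v) (h.le v _ (hs v))
      have hsE₁ : s ∈ E₁.sections := hcase s hsE
      apply he₁
      intro v
      have h2 : e.1 v = (e.1 v - s) + s := by abel
      rw [h2]
      exact stalk_add (hs v) (hsE₁ v)
    obtain ⟨l, hl1, hl2⟩ := Submodule.exists_le_ker_of_notMem heW
    have hlOm : l ∈ Om E₁ := by
      refine ⟨fun r hr => ?_, fun r hr => ?_⟩
      · obtain ⟨s, hs⟩ := hr
        exact hl2 (⟨s, fun v => by rw [hs v, sub_self]; exact stalk_zero⟩ : r ∈ W)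
      · exact hl2 (⟨0, fun v => by rw [sub_zero]; exact hr v⟩ : r ∈ W)
    have hlE : l ∉ Om E := fun hl => hl1 (hl.2 e he)
    have h3 := finrank_succ_aux hOm hlOm hlE (fun p hp => by
      refine ⟨p e * (l e)⁻¹, ?_⟩
      have hq : p - (p e * (l e)⁻¹) • l ∈ Om E₁ := sub_mem hp (Submodule.smul_mem _ _ hlOm)
      refine ⟨hq.1, fun r hr => ?_⟩
      obtain ⟨c, hc⟩ := hdec r hr
      have h5 : (p - (p e * (l e)⁻¹) • l) (r - c • e) = 0 := hq.2 _ hc
      have h6 : (p - (p e * (l e)⁻¹) • l) e = 0 := by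
        rw [LinearMap.sub_apply, LinearMap.smul_apply, smul_eq_mul, mul_assoc,
          inv_mul_cancel₀ hl1, mul_one, sub_self]
      rw [map_sub, map_smul, h6, smul_zero, sub_zero] at h5
      exact h5)
    unfold HasChi
    rw [h1, h3.1]
    constructor
    · rintro ⟨a, b, c⟩
      refine ⟨a, b, ?_⟩
      rw [h3.2 b] at c
      push_cast at c
      omega
    · rintro ⟨a, b, c⟩
      refine ⟨a, b, ?_⟩
      rw [h3.2 b]
      push_cast
      omega

end Pool.Agent.TH185.C
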