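import Pool.Agent.TH185.C.Place

open scoped WithZero Polynomial IntermediateField
open WithZero IsDedekindDomain

set_option linter.unusedSectionVars false

namespace Pool.Agent.TH185.C

section Count

variable {𝕜 K : Type} [Field 𝕜] [IsAlgClosed 𝕜] [Field K] [Algebra 𝕜 K]
variable [Algebra 𝕜[X] K] [IsScalarTower 𝕜 𝕜[X] K]

/-- the integral closure of `𝕜[t]` in `K` -/
noncomputable abbrev BB (𝕜 K : Type) [Field 𝕜] [Field K] [Algebra 𝕜[X] K] : Subalgebra 𝕜[X] K :=
  integralClosure 𝕜[X] K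

theorem poly_mem (v : Point 𝕜 K) (h : v.val (algebraMap 𝕜[X] K Polynomial.X) ≤ 1) (p : 𝕜[X]) :
    v.val (algebraMap 𝕜[X] K p) ≤ 1 := by
  induction p using Polynomial.induction_on' with
  | add p q hp hq => rw [map_add]; exact Valuation.map_add_le _ hp hq
  | monomial n a =>
    rw [← Polynomial.C_mul_X_pow_eq_monomial, map_mul, map_mul, map_pow, map_pow]
    refine mul_le_one' ?_ (pow_le_one' h n)
    have : algebraMap 𝕜[X] K (Polynomial.C a) = algebraMap 𝕜 K a := by
      rw [IsScalarTower.algebraMap_apply 𝕜 𝕜[X] K]; rfl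
    rw [this]
    exact v.const_le a

theorem int_mem (v : Point 𝕜 K) (h : v.val (algebraMap 𝕜[X] K Polynomial.X) ≤ 1) (b : BB 𝕜 K) :
    v.val (b : K) ≤ 1 := by
  have hb : IsIntegral 𝕜[X] (b : K) := b.2
  let φ : 𝕜[X] →+* v.val.integer :=
    (algebraMap 𝕜[X] K).codRestrict v.val.integer (fun p => poly_mem v h p)
  have h1 : IsIntegral v.val.integer (b : K) := by
    have := hb.map_of_comp_eq φ (RingHom.id K) (by ext p <;> rfl)
    simpa using this
  exact (Valuation.integer.integers v.val).mem_of_integral h1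

section

variable (F : Type) [Field F] [Algebra 𝕜[X] F] [IsFractionRing 𝕜[X] F] [Algebra F K]
  [IsScalarTower 𝕜[X] F K] [FiniteDimensional F K]

include F in
theorem BB_dedekind [Algebra.IsSeparable F K] : IsDedekindDomain (BB 𝕜 K) := by
  exact integralClosure.isDedekindDomain 𝕜[X] F K

include F in
theorem BB_fraction : IsFractionRing (BB 𝕜 K) K :=
  integralClosure.isFractionRing_of_finite_extension F K

include F in
theorem BB_finite [Algebra.IsSeparable F K] : Module.Finite 𝕜[X] (BB 𝕜 K) := by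
  exact IsIntegralClosure.finite 𝕜[X] F K (BB 𝕜 K)

end

variable [IsDedekindDomain (BB 𝕜 K)] [IsFractionRing (BB 𝕜 K) K]

/-- the prime of `BB 𝕜 K` under a point at which `t` is regular -/
def under (v : Point 𝕜 K) (h : v.val (algebraMap 𝕜[X] K Polynomial.X) ≤ 1) :
    HeightOneSpectrum (BB 𝕜 K) where
  asIdeal :=
    { carrier := {b | v.val (b : K) < 1}
      add_mem' := fun {a b} ha hb => by
        change v.val ((a + b : BB 𝕜 K) : K) < 1
        push_cast
        exact Valuation.map_add_lt _ ha hb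
      zero_mem' := by
        change v.val ((0 : BB 𝕜 K) : K) < 1
        simp
      smul_mem' := fun c b hb => by
        change v.val ((c * b : BB 𝕜 K) : K) < 1
        push_cast
        rw [map_mul]
        exact (mul_le_of_le_one_left' (int_mem v h c)).trans_lt hb }
  isPrime := by
    refine ⟨?_, ?_⟩
    · intro htop
      have : (1 : BB 𝕜 K) ∈ (⊤ : Ideal (BB 𝕜 K)) := trivial
      rw [← htop] at this
      change v.val ((1 : BB 𝕜 K) : K) < 1 at this
      simp at this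
    · intro a b hab
      change v.val ((a * b : BB 𝕜 K) : K) < 1 at hab
      push_cast at hab
      rw [map_mul] at hab
      by_contra hcon
      push Not at hcon
      have h1 : v.val (a : K) = 1 := le_antisymm (int_mem v h a) (not_lt.1 hcon.1)
      have h2 : v.val (b : K) = 1 := le_antisymm (int_mem v h b) (not_lt.1 hcon.2)
      rw [h1, h2] at hab
      simp at hab
  ne_bot := by
    intro hbot
    obtain ⟨z, hz⟩ := v.surj (exp (-1))
    obtain ⟨a, b, hb, rfl⟩ := IsFractionRing.div_surjective (A := BB 𝕜 K) z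
    have key : ∀ c : BB 𝕜 K, c ≠ 0 → v.val (c : K) = 1 := by
      intro c hc
      refine le_antisymm (int_mem v h c) (not_lt.1 fun hlt => hc ?_)
      have : c ∈ (⊥ : Ideal (BB 𝕜 K)) := by rw [← hbot]; exact hlt
      simpa using this
    have hb0 : b ≠ 0 := nonZeroDivisors.ne_zero hb
    have ha0 : a ≠ 0 := by
      rintro rfl
      simp at hz
      exact exp_ne_zero hz.symm
    rw [map_div₀] at hz
    change v.val (a : K) / v.val (b : K) = _ at hz
    rw [key a ha0, key b hb0, div_one, ← exp_zero, exp_inj] at hz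
    omega

theorem mem_under (v : Point 𝕜 K) (h : v.val (algebraMap 𝕜[X] K Polynomial.X) ≤ 1) (b : BB 𝕜 K) :
    b ∈ (under v h).asIdeal ↔ v.val (b : K) < 1 := Iff.rfl

theorem under_valuation (v : Point 𝕜 K) (h : v.val (algebraMap 𝕜[X] K Polynomial.X) ≤ 1) :
    (under v h).valuation K = v.val := by
  refine (eq_of_valuationSubring_eq v.surj ((under v h).valuation_surjective K) ?_).symm
  rw [← HeightOneSpectrum.valuationSubringAtPrime_eq_valuationSubring]
  refine (ValuationSubring.eq_of_le_of_ne_top _ ?_ ?_).symm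
  · rintro x ⟨a, s, hs, rfl⟩
    change v.val (algebraMap (BB 𝕜 K) K a * (algebraMap (BB 𝕜 K) K s)⁻¹) ≤ 1
    rw [map_mul, map_inv₀]
    have h1 : v.val (algebraMap (BB 𝕜 K) K s) = 1 :=
      le_antisymm (int_mem v h s) (not_lt.1 hs)
    rw [h1, inv_one, mul_one]
    exact int_mem v h a
  · intro htop
    obtain ⟨z, hz⟩ := v.surj (exp 1)
    have : z ∈ v.val.valuationSubring := by rw [htop]; trivial
    rw [Valuation.mem_valuationSubring_iff, hz, ← exp_zero, exp_le_exp] at this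
    omega

/-- the point of the curve defined by a prime of `BB 𝕜 K` -/
noncomputable def above (P : HeightOneSpectrum (BB 𝕜 K)) : Point 𝕜 K where
  val := P.valuation K
  surj := P.valuation_surjective K
  const := by
    intro c hc
    have h1 : algebraMap 𝕜 K c = algebraMap (BB 𝕜 K) K (algebraMap 𝕜[X] (BB 𝕜 K) (Polynomial.C c)) := by
      rw [← IsScalarTower.algebraMap_apply, IsScalarTower.algebraMap_apply 𝕜 𝕜[X] K]; rfl
    rw [h1, HeightOneSpectrum.valuation_eq_one_iff_notMem]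
    intro hmem
    apply P.isPrime.ne_top
    rw [Ideal.eq_top_iff_one]
    have h2 := P.asIdeal.mul_mem_left (algebraMap 𝕜[X] (BB 𝕜 K) (Polynomial.C c⁻¹)) hmem
    rwa [← map_mul, ← Polynomial.C_mul, inv_mul_cancel₀ hc, map_one, map_one] at h2

theorem above_X (P : HeightOneSpectrum (BB 𝕜 K)) :
    (above P).val (algebraMap 𝕜[X] K Polynomial.X) ≤ 1 := by
  rw [IsScalarTower.algebraMap_apply 𝕜[X] (BB 𝕜 K) K]
  exact P.valuation_le_one _

theorem above_under (v : Point 𝕜 K) (h : v.val (algebraMap 𝕜[X] K Polynomial.X) ≤ 1) :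
    above (under v h) = v := by
  ext1
  exact under_valuation v h

/-- the maximal ideal `(X)` -/
noncomputable def pX (𝕜 : Type) [Field 𝕜] : Ideal 𝕜[X] := Ideal.span {Polynomial.X - Polynomial.C (0 : 𝕜)}

instance pX_maximal {𝕜 : Type} [Field 𝕜] : (pX 𝕜).IsMaximal :=
  PrincipalIdealRing.isMaximal_of_irreducible (Polynomial.irreducible_X_sub_C 0)

theorem pX_ne_bot : (pX 𝕜) ≠ ⊥ := by
  rw [pX, Ne, Ideal.span_singleton_eq_bot]
  exact Polynomial.X_sub_C_ne_zero 0

theorem pX_closed : @IsAlgClosed (𝕜[X] ⧸ (pX 𝕜)) (Ideal.Quotient.field (pX 𝕜)) := by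
  let := Ideal.Quotient.field (pX 𝕜)
  exact IsAlgClosed.of_ringEquiv 𝕜 (𝕜[X] ⧸ (pX 𝕜))
    (Polynomial.quotientSpanXSubCAlgEquiv (0 : 𝕜)).symm.toRingEquiv

theorem inertia_eq_one [Module.Finite 𝕜[X] (BB 𝕜 K)] (P : Ideal (BB 𝕜 K)) [P.IsPrime]
    [P.LiesOver (pX 𝕜)] : Ideal.inertiaDeg' (pX 𝕜) P = 1 := by
  rw [Ideal.inertiaDeg'_algebraMap]
  let := Ideal.Quotient.field (pX 𝕜)
  have := pX_closed (𝕜 := 𝕜)
  have h := IsAlgClosed.algebraMap_bijective_of_isIntegral (k := 𝕜[X] ⧸ (pX 𝕜)) (K := BB 𝕜 K ⧸ P)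
  have e : (𝕜[X] ⧸ (pX 𝕜)) ≃ₗ[𝕜[X] ⧸ (pX 𝕜)] (BB 𝕜 K ⧸ P) :=
    LinearEquiv.ofBijective (Algebra.linearMap (𝕜[X] ⧸ (pX 𝕜)) (BB 𝕜 K ⧸ P)) h
  rw [← e.finrank_eq]
  exact Module.finrank_self _

theorem map_pX : Ideal.map (algebraMap 𝕜[X] (BB 𝕜 K)) (pX 𝕜) =
    Ideal.span {algebraMap 𝕜[X] (BB 𝕜 K) Polynomial.X} := by
  rw [pX, Ideal.map_span, Set.image_singleton, map_zero, sub_zero]

theorem ram_eq (hX : algebraMap 𝕜[X] K Polynomial.X ≠ 0) (P : HeightOneSpectrum (BB 𝕜 K)) :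
    ((above P).ord (algebraMap 𝕜[X] K Polynomial.X) : ℤ) =
      Ideal.ramificationIdx' (pX 𝕜) P.asIdeal := by
  have h0 := (above P).ord_nonneg_of_val_le (above_X P)
  obtain ⟨n, hn⟩ := Int.eq_ofNat_of_zero_le h0
  have h1 : P.intValuation (algebraMap 𝕜[X] (BB 𝕜 K) Polynomial.X) = exp (-(n : ℤ)) := by
    rw [← HeightOneSpectrum.valuation_of_algebraMap (K := K), ← hn]
    change (above P).val (algebraMap (BB 𝕜 K) K (algebraMap 𝕜[X] (BB 𝕜 K) Polynomial.X)) = _
    rw [← IsScalarTower.algebraMap_apply 𝕜[X] (BB 𝕜 K) K]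
    exact (above P).val_eq_exp hX
  rw [hn]
  congr 1
  symm
  apply Ideal.ramificationIdx'_spec
  · rw [map_pX, Ideal.span_singleton_le_iff_mem, ← HeightOneSpectrum.intValuation_le_pow_iff_mem,
      h1]
  · rw [map_pX, Ideal.span_singleton_le_iff_mem, ← HeightOneSpectrum.intValuation_le_pow_iff_mem,
      h1, exp_le_exp]
    push_cast
    omega

theorem liesOver_of_lt (P : HeightOneSpectrum (BB 𝕜 K))
    (h : (above P).val (algebraMap 𝕜[X] K Polynomial.X) < 1) : P.asIdeal.LiesOver (pX 𝕜) := by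
  constructor
  have hle : (pX 𝕜) ≤ P.asIdeal.under 𝕜[X] := by
    rw [pX, Ideal.span_singleton_le_iff_mem, map_zero, sub_zero, Ideal.mem_comap,
      ← HeightOneSpectrum.valuation_lt_one_iff_mem (K := K)]
    exact h
  exact pX_maximal.eq_of_le (P.isPrime.comap _).ne_top hle

theorem lt_of_liesOver (P : HeightOneSpectrum (BB 𝕜 K)) (h : P.asIdeal.LiesOver (pX 𝕜)) :
    (above P).val (algebraMap 𝕜[X] K Polynomial.X) < 1 := by
  have h1 : (Polynomial.X : 𝕜[X]) ∈ (pX 𝕜) := by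
    rw [pX, map_zero, sub_zero]
    exact Ideal.mem_span_singleton_self _
  rw [h.over, Ideal.mem_comap, ← HeightOneSpectrum.valuation_lt_one_iff_mem (K := K)] at h1
  exact h1

theorem count_sum (F : Type) [Field F] [Algebra 𝕜[X] F] [IsFractionRing 𝕜[X] F] [Algebra F K]
    [IsScalarTower 𝕜[X] F K] [Module.Finite 𝕜[X] (BB 𝕜 K)] [Module.IsTorsionFree 𝕜[X] (BB 𝕜 K)]
    (hX : algebraMap 𝕜[X] K Polynomial.X ≠ 0) :
    ∃ S : Finset (Point 𝕜 K), (∀ v, v ∈ S ↔ v.val (algebraMap 𝕜[X] K Polynomial.X) < 1) ∧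
      ∑ v ∈ S, v.ord (algebraMap 𝕜[X] K Polynomial.X) = Module.finrank F K := by
  classical
  have hmem : ∀ P : Ideal (BB 𝕜 K), P ∈ IsDedekindDomain.primesOverFinset (pX 𝕜) (BB 𝕜 K) ↔
      P.IsPrime ∧ P.LiesOver (pX 𝕜) :=
    fun P => IsDedekindDomain.mem_primesOverFinset_iff pX_ne_bot (BB 𝕜 K)
  have hne : ∀ P : Ideal (BB 𝕜 K), P.LiesOver (pX 𝕜) → P ≠ ⊥ := by
    rintro P hP rfl
    have h1 : (Polynomial.X : 𝕜[X]) ∈ (pX 𝕜) := by
      rw [pX, map_zero, sub_zero]
      exact Ideal.mem_span_singleton_self _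
    rw [hP.over, Ideal.mem_comap, Ideal.mem_bot] at h1
    apply hX
    rw [IsScalarTower.algebraMap_apply 𝕜[X] (BB 𝕜 K) K, h1, map_zero]
  let f : {P // P ∈ IsDedekindDomain.primesOverFinset (pX 𝕜) (BB 𝕜 K)} → Point 𝕜 K := fun P =>
    above ⟨P.1, ((hmem P.1).1 P.2).1, hne P.1 ((hmem P.1).1 P.2).2⟩
  have hf : Function.Injective f := by
    intro P Q hPQ
    have h1 := congrArg Point.val hPQ
    have h2 := HeightOneSpectrum.eq_of_valuation_isEquiv_valuation (K := K)
      (p := ⟨P.1, ((hmem P.1).1 P.2).1, hne P.1 ((hmem P.1).1 P.2).2⟩)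
      (q := ⟨Q.1, ((hmem Q.1).1 Q.2).1, hne Q.1 ((hmem Q.1).1 Q.2).2⟩) (by
        change Valuation.IsEquiv (f P).val (f Q).val
        rw [h1])
    exact Subtype.ext (congrArg HeightOneSpectrum.asIdeal h2)
  refine ⟨Finset.univ.map ⟨f, hf⟩, ?_, ?_⟩
  · intro v
    rw [Finset.mem_map]
    constructor
    · rintro ⟨P, -, rfl⟩
      exact lt_of_liesOver _ ((hmem P.1).1 P.2).2
    · intro hv
      have h1 := above_under v hv.le
      have h2 : (under v hv.le).asIdeal.LiesOver (pX 𝕜) := by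
        apply liesOver_of_lt
        rwa [h1]
      refine ⟨⟨(under v hv.le).asIdeal, (hmem _).2 ⟨(under v hv.le).isPrime, h2⟩⟩,
        Finset.mem_univ _, ?_⟩
      exact h1
  · rw [Finset.sum_map, ← Ideal.sum_ramification_inertia (BB 𝕜 K) F K (pX_ne_bot (𝕜 := 𝕜)), Nat.cast_sum,
      Finset.univ_eq_attach, ← Finset.sum_attach (IsDedekindDomain.primesOverFinset (pX 𝕜) (BB 𝕜 K))]
    refine Finset.sum_congr rfl fun P _ => ?_
    have h1 := (hmem P.1).1 P.2
    have := h1.1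
    have := h1.2
    rw [inertia_eq_one, mul_one]
    exact ram_eq hX ⟨P.1, h1.1, hne P.1 h1.2⟩

end Count

end Pool.Agent.TH185.C
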