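import Mathlib

/-!
# Curves and vector bundles over an algebraically closed field

A smooth irreducible projective curve `X` over an algebraically closed field `𝕜` is described by its
function field `K` (Hartshorne, Algebraic Geometry, I.6): `K` is a finitely generated field extension
of `𝕜` of transcendence degree one, and the closed points of `X` are the normalised discrete
valuations of `K` which are trivial on `𝕜`; the local ring of `X` at `v` is `𝒪_v = {z | v z ≤ 1}`.

A vector bundle `E` of rank `n` on `X` is described by its generic fibre `K ^ n` and its stalks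
`E_v = g_v 𝒪_v ^ n` at the closed points `v`, where `g_v ∈ GL_n(K)` is a local frame, and
`g_v ∈ GL_n(𝒪_v)` for all but finitely many `v` (this is Weil's description of vector bundles).

The definitions and many proofs in this folder are those of `Pool/Agent/Helper395/CS` and
`Pool/Agent/Helper395/BC` of the starting repository, with `ℂ` replaced by an arbitrary algebraically
closed field.
-/

open scoped WithZero Matrix

namespace Pool.Agent.TH185.C

section Curve

variable (𝕜 K : Type) [Field 𝕜] [Field K] [Algebra 𝕜 K]

/-- `K` is the function field of a smooth irreducible projective curve over `𝕜`: a finitely generated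
field extension of `𝕜` of transcendence degree one. -/
structure IsCurve : Prop where
  fg : (⊤ : IntermediateField 𝕜 K).FG
  trdeg : Algebra.trdeg 𝕜 K = 1

/-- The closed points of the curve `X` with function field `K`: the normalised discrete valuations
of `K` which are trivial on `𝕜`. (`ℤᵐ⁰` is `ℤ ∪ {0}` written multiplicatively.) -/
@[ext]
structure Point where
  /-- the valuation -/
  val : Valuation K ℤᵐ⁰
  surj : Function.Surjective val
  const : ∀ c : 𝕜, c ≠ 0 → val (algebraMap 𝕜 K c) = 1

variable {𝕜 K}

/-- The order of vanishing of the rational function `z` at the point `v` (and `0` if `z = 0`). -/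
noncomputable def Point.ord (v : Point 𝕜 K) (z : K) : ℤ := -WithZero.log (v.val z)

theorem Point.const_le (v : Point 𝕜 K) (c : 𝕜) : v.val (algebraMap 𝕜 K c) ≤ 1 := by
  rcases eq_or_ne c 0 with rfl | hc
  · simp
  · exact (v.const c hc).le

variable (𝕜 K)

/-! ### Line bundles -/

/-- A line bundle on the curve with function field `K`: its generic fibre is `K` and its stalk at the
closed point `v` is `ℓ_v 𝒪_v`, where `ℓ_v ∈ Kˣ` is a unit of `𝒪_v` for all but finitely many `v`. -/
structure LineBundle where
  /-- the generators `ℓ_v` -/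
  frame : Point 𝕜 K → Kˣ
  finite : {v : Point 𝕜 K | v.val (frame v) ≠ 1}.Finite

variable {𝕜 K}

/-- The stalk `ℓ_v 𝒪_v` of a line bundle at `v`. -/
def LineBundle.stalk (L : LineBundle 𝕜 K) (v : Point 𝕜 K) : Set K :=
  {s | v.val s ≤ v.val (L.frame v)}

/-- The degree of a line bundle, `∑_v -ord_v(ℓ_v)`. -/
noncomputable def LineBundle.degree (L : LineBundle 𝕜 K) : ℤ :=
  ∑ᶠ v : Point 𝕜 K, -v.ord (L.frame v)

/-! ### Vector bundles -/

variable (𝕜 K)

/-- A vector bundle of rank `n` on the curve with function field `K`: at every closed point `v` there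
is a frame `g_v ∈ GL_n(K)`, which lies in `GL_n(𝒪_v)` for all but finitely many `v`. The generic
fibre of the bundle is `K ^ n` and its stalk at `v` is `g_v 𝒪_v ^ n`. -/
structure Bundle (n : ℕ) where
  /-- the frames -/
  frame : Point 𝕜 K → GL (Fin n) K
  finite : {v : Point 𝕜 K | ¬ ((∀ i j, v.val ((frame v).1 i j) ≤ 1) ∧
    (∀ i j, v.val ((frame v)⁻¹.1 i j) ≤ 1))}.Finite

variable {𝕜 K} {n m : ℕ}

/-- The stalk `E_v = g_v 𝒪_v ^ n` of a vector bundle at the point `v`, a subset of the generic fibre
`K ^ n`: the vectors whose coordinates with respect to the frame at `v` are regular at `v`. -/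
def Bundle.stalk (E : Bundle 𝕜 K n) (v : Point 𝕜 K) : Set (Fin n → K) :=
  {s | ∀ i, v.val (((E.frame v)⁻¹.1 *ᵥ s) i) ≤ 1}

/-- The degree of a vector bundle, `∑_v -ord_v (det g_v)`. -/
noncomputable def Bundle.degree (E : Bundle 𝕜 K n) : ℤ :=
  ∑ᶠ v : Point 𝕜 K, -v.ord (E.frame v).1.det

/-- The space `H⁰(X, E)` of global sections of a vector bundle. -/
def Bundle.sections (E : Bundle 𝕜 K n) : Submodule 𝕜 (Fin n → K) where
  carrier := {s | ∀ v, s ∈ E.stalk v}
  add_mem' := by
    intro a b ha hb v i
    rw [Matrix.mulVec_add]
    exact Valuation.map_add_le _ (ha v i) (hb v i)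
  zero_mem' := by
    intro v i
    rw [Matrix.mulVec_zero]
    simp
  smul_mem' := by
    intro c s hs v i
    have h : c • s = (algebraMap 𝕜 K c) • s := by
      ext i
      simp [Algebra.smul_def]
    rw [h, Matrix.mulVec_smul, Pi.smul_apply, smul_eq_mul, map_mul]
    rcases eq_or_ne c 0 with rfl | hc
    · simp
    · rw [v.const c hc, one_mul]
      exact hs v i

/-- The automorphism `A` of the generic fibre `K ^ n` is an isomorphism of the vector bundles `E` and
`F`: it maps the stalks of the first bundle onto the stalks of the second. -/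
def IsBundleIso (E F : Bundle 𝕜 K n) (A : GL (Fin n) K) : Prop :=
  ∀ v s, s ∈ E.stalk v ↔ A.1 *ᵥ s ∈ F.stalk v

/-- `(F, j)` is a subbundle of rank `m` of `E`: `j` is an injection of the generic fibres and the
stalks of `F` are the (saturated) intersections of the stalks of `E` with the generic fibre of `F`. -/
structure IsSubbundle (F : Bundle 𝕜 K m) (E : Bundle 𝕜 K n) (j : (Fin m → K) →ₗ[K] (Fin n → K)) :
    Prop where
  injective : Function.Injective j
  stalk : ∀ v s, s ∈ F.stalk v ↔ j s ∈ E.stalk v

theorem Point.val_det_le_one (v : Point 𝕜 K) (M : Matrix (Fin n) (Fin n) K)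
    (h : ∀ i j, v.val (M i j) ≤ 1) : v.val M.det ≤ 1 := by
  rw [Matrix.det_apply]
  refine Valuation.map_sum_le _ fun σ _ => ?_
  rw [Units.smul_def, zsmul_eq_mul, map_mul, map_prod]
  refine mul_le_one' ?_ (Finset.prod_le_one' fun i _ => h _ _)
  have := v.const_le ((Equiv.Perm.sign σ : ℤ) : 𝕜)
  simpa using this

/-- The determinant line bundle of `E`; its stalk at `v` is `(det g_v) 𝒪_v`. -/
noncomputable def Bundle.det (E : Bundle 𝕜 K n) : LineBundle 𝕜 K where
  frame v := Matrix.GeneralLinearGroup.det (E.frame v)
  finite := by
    refine E.finite.subset fun v hv h => hv ?_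
    have h1 := v.val_det_le_one _ h.1
    have h2 := v.val_det_le_one _ h.2
    have h3 : v.val (E.frame v).1.det * v.val (E.frame v)⁻¹.1.det = 1 := by
      rw [← map_mul, ← Matrix.det_mul, ← Units.val_mul, mul_inv_cancel, Units.val_one,
        Matrix.det_one, map_one]
    exact le_antisymm h1 (by
      rw [← h3]
      exact mul_le_of_le_one_right' h2)

end Curve

end Pool.Agent.TH185.C
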