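import Pool.Agent.TH185.C.Base

open scoped WithZero Matrix IntermediateField
open WithZero

set_option linter.unusedSectionVars false
set_option linter.unusedVariables false

namespace Pool.Agent.TH185.C


variable {𝕜 K : Type} [Field 𝕜] [IsAlgClosed 𝕜] [Field K] [Algebra 𝕜 K] {n m : ℕ}

/-! ### operations on line bundles -/

/-- the tensor product -/
def lmul (L M : LineBundle 𝕜 K) : LineBundle 𝕜 K where
  frame v := L.frame v * M.frame v
  finite := (L.finite.union M.finite).subset fun v hv => by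
    by_contra hcon
    simp only [Set.mem_union, Set.mem_ofPred_eq, not_or, not_not] at hcon
    exact hv (by rw [Units.val_mul, map_mul, hcon.1, hcon.2, one_mul])

/-- the inverse -/
def linv (L : LineBundle 𝕜 K) : LineBundle 𝕜 K where
  frame v := (L.frame v)⁻¹
  finite := L.finite.subset fun v hv h => hv (by rw [Units.val_inv_eq_inv_val, map_inv₀, h, inv_one])

theorem frame_pos (L : LineBundle 𝕜 K) (v : Point 𝕜 K) : 0 < v.val (L.frame v : K) :=
  zero_lt_iff.2 (v.val_ne_zero (L.frame v).ne_zero)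

theorem mem_lmul (L M : LineBundle 𝕜 K) (v : Point 𝕜 K) (s : K) :
    s ∈ (lmul L M).stalk v ↔ v.val s ≤ v.val (L.frame v : K) * v.val (M.frame v : K) := by
  change v.val s ≤ v.val ((L.frame v * M.frame v : Kˣ) : K) ↔ _
  rw [Units.val_mul, map_mul]

theorem mem_lmul_linv (L M : LineBundle 𝕜 K) (v : Point 𝕜 K) (s : K) :
    s ∈ (lmul L (linv M)).stalk v ↔ s * (M.frame v : K) ∈ L.stalk v := by
  rw [mem_lmul]
  change v.val s ≤ v.val (L.frame v : K) * v.val (((M.frame v)⁻¹ : Kˣ) : K) ↔
    v.val (s * (M.frame v : K)) ≤ v.val (L.frame v : K)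
  rw [Units.val_inv_eq_inv_val, map_inv₀, map_mul, ← div_eq_mul_inv, le_div_iff₀ (frame_pos M v)]

theorem ldegree_finite (L : LineBundle 𝕜 K) :
    (Function.support fun v : Point 𝕜 K => -v.ord (L.frame v : K)).Finite := by
  refine L.finite.subset fun v hv h => ?_
  rw [Function.mem_support, neg_ne_zero] at hv
  exact hv ((v.val_eq_one_iff (L.frame v).ne_zero).1 h)

theorem lmul_degree (L M : LineBundle 𝕜 K) : (lmul L M).degree = L.degree + M.degree := by
  rw [LineBundle.degree, LineBundle.degree, LineBundle.degree,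
    ← finsum_add_distrib (ldegree_finite L) (ldegree_finite M)]
  refine finsum_congr fun v => ?_
  change -v.ord ((L.frame v * M.frame v : Kˣ) : K) = _
  rw [Units.val_mul, v.ord_mul (L.frame v).ne_zero (M.frame v).ne_zero]
  ring

theorem linv_degree (L : LineBundle 𝕜 K) : (linv L).degree = -L.degree := by
  rw [LineBundle.degree, LineBundle.degree, ← finsum_neg_distrib]
  refine finsum_congr fun v => ?_
  change -v.ord (((L.frame v)⁻¹ : Kˣ) : K) = _
  rw [Units.val_inv_eq_inv_val, v.ord_inv]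

/-- the line bundle of a point -/
noncomputable def lpt (v : Point 𝕜 K) : LineBundle 𝕜 K := by
  classical
  exact
  { frame := fun w => if w = v then (Units.mk0 (unif v) (unif_ne_zero v))⁻¹ else 1
    finite := (Set.finite_singleton v).subset fun w hw => by
      by_contra h
      apply hw
      have h' : w ≠ v := h
      simp only [if_neg h', Units.val_one, map_one] }

theorem lpt_frame_self (v : Point 𝕜 K) : ((lpt v).frame v : K) = (unif v)⁻¹ := by
  classical
  simp [lpt]

theorem lpt_frame_ne {v w : Point 𝕜 K} (h : w ≠ v) : (lpt v).frame w = 1 := by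
  classical
  simp [lpt, h]

theorem lpt_degree (v : Point 𝕜 K) : (lpt v).degree = 1 := by
  rw [LineBundle.degree, finsum_eq_single _ v]
  · rw [lpt_frame_self, v.ord_inv, ord_unif, neg_neg]
  · intro w hw
    rw [lpt_frame_ne hw, Units.val_one, w.ord_one, neg_zero]

/-- the line bundle of a rational function -/
noncomputable def lprin (hK : IsCurve 𝕜 K) (f : Kˣ) : LineBundle 𝕜 K where
  frame _ := f
  finite := (finite_ord hK (f : K)).subset fun v hv h =>
    hv ((v.val_eq_one_iff f.ne_zero).2 h)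

theorem lprin_degree (hK : IsCurve 𝕜 K) (f : Kˣ) : (lprin hK f).degree = 0 := by
  rw [LineBundle.degree]
  change ∑ᶠ v : Point 𝕜 K, -v.ord (f : K) = 0
  rw [finsum_neg_distrib, sum_ord hK, neg_zero]

theorem ldegree_le (hK : IsCurve 𝕜 K) {L M : LineBundle 𝕜 K}
    (h : ∀ v s, s ∈ L.stalk v → s ∈ M.stalk v) : L.degree ≤ M.degree := by
  have h1 := degree_le_of_le hK (E' := lsum L 1) (E := lsum M 1) (fun v s hs => by
    rw [mem_lsum_stalk] at hs ⊢
    exact fun i => h v _ (hs i))
  rwa [lsum_degree, lsum_degree, Nat.cast_one, one_mul, one_mul] at h1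

theorem lstalk_eq_of_degree_eq (hK : IsCurve 𝕜 K) {L M : LineBundle 𝕜 K}
    (h : ∀ v s, s ∈ L.stalk v → s ∈ M.stalk v) (hd : L.degree = M.degree) (v : Point 𝕜 K) :
    L.stalk v = M.stalk v := by
  have h1 := stalk_eq_of_degree_eq hK (E' := lsum L 1) (E := lsum M 1) (fun v s hs => by
    rw [mem_lsum_stalk] at hs ⊢
    exact fun i => h v _ (hs i)) (by rw [lsum_degree, lsum_degree, hd]) v
  ext s
  have h2 := Set.ext_iff.1 h1 (fun _ => s)
  rw [mem_lsum_stalk, mem_lsum_stalk] at h2
  simpa using h2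

theorem lstalk_mul {L : LineBundle 𝕜 K} {v : Point 𝕜 K} {s : K} (hs : s ∈ L.stalk v) {a : K}
    (ha : v.val a ≤ 1) : a * s ∈ L.stalk v := by
  change v.val (a * s) ≤ _
  rw [map_mul]
  exact (mul_le_of_le_one_left' ha).trans hs

theorem degree_nonneg_of_section (hK : IsCurve 𝕜 K) {L : LineBundle 𝕜 K} {f : K} (hf : f ∈ H0 L)
    (hf0 : f ≠ 0) : 0 ≤ L.degree := by
  have h := ldegree_le hK (L := lprin hK (Units.mk0 f hf0)) (M := L) (fun v s hs => by
    change v.val s ≤ v.val f at hs
    exact hs.trans (hf v))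
  rwa [lprin_degree] at h

theorem H0_eq_bot (hK : IsCurve 𝕜 K) {L : LineBundle 𝕜 K} (h : L.degree < 0) : H0 L = ⊥ := by
  rw [eq_bot_iff]
  intro f hf
  by_contra hf0
  have := degree_nonneg_of_section hK hf hf0
  omega

theorem exists_transc (hK : IsCurve 𝕜 K) : ∃ t : K, Transcendental 𝕜 t := by
  by_contra h
  push Not at h
  have h1 : Algebra.IsAlgebraic 𝕜 K := ⟨fun z => by
    by_contra hz
    exact h z hz⟩
  have h2 := hK.trdeg
  rw [trdeg_eq_zero] at h2
  exact zero_ne_one h2

theorem exists_large (hK : IsCurve 𝕜 K) (N : ℤ) : ∃ L : LineBundle 𝕜 K, N ≤ L.degree := by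
  obtain ⟨v⟩ := point_nonempty hK
  have h : ∀ k : ℕ, ∃ L : LineBundle 𝕜 K, (k : ℤ) ≤ L.degree := by
    intro k
    induction k with
    | zero => exact ⟨one 𝕜 K, by rw [one_degree]; simp⟩
    | succ k ih =>
      obtain ⟨L, hL⟩ := ih
      exact ⟨lmul L (lpt v), by rw [lmul_degree, lpt_degree]; push_cast; omega⟩
  obtain ⟨L, hL⟩ := h N.toNat
  exact ⟨L, by omega⟩

/-- a line bundle contained in two line bundles -/
theorem exists_lcommon (L M : LineBundle 𝕜 K) : ∃ N : LineBundle 𝕜 K,
    (∀ v s, s ∈ N.stalk v → s ∈ L.stalk v) ∧ (∀ v s, s ∈ N.stalk v → s ∈ M.stalk v) := by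
  classical
  refine ⟨⟨fun v => if v.val (L.frame v : K) ≤ v.val (M.frame v : K) then L.frame v else M.frame v,
    (L.finite.union M.finite).subset fun v hv => ?_⟩, ?_, ?_⟩
  · by_contra hcon
    simp only [Set.mem_union, Set.mem_ofPred_eq, not_or, not_not] at hcon
    apply hv
    split_ifs
    · exact hcon.1
    · exact hcon.2
  · intro v s hs
    change v.val s ≤ v.val ((if v.val (L.frame v : K) ≤ v.val (M.frame v : K) then L.frame v
      else M.frame v : Kˣ) : K) at hs
    change v.val s ≤ _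
    split_ifs at hs with h
    · exact hs
    · exact hs.trans (not_le.1 h).le
  · intro v s hs
    change v.val s ≤ v.val ((if v.val (L.frame v : K) ≤ v.val (M.frame v : K) then L.frame v
      else M.frame v : Kˣ) : K) at hs
    change v.val s ≤ _
    split_ifs at hs with h
    · exact hs.trans h
    · exact hs

/-- a sum of line bundles contained in a bundle -/
theorem exists_lsum_le (E : Bundle 𝕜 K n) : ∃ L : LineBundle 𝕜 K,
    ∀ v s, (∀ i, s i ∈ L.stalk v) → s ∈ E.stalk v := by
  classical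
  have key : ∀ (v : Point 𝕜 K) (M : Matrix (Fin n) (Fin n) K), ∃ k : ℕ,
      v.RegM ((unif v) ^ k • M) := by
    intro v M
    have h1 : ∀ z : K, ∃ k : ℕ, ∀ l : ℕ, k ≤ l → v.val ((unif v) ^ l * z) ≤ 1 := by
      intro z
      rcases eq_or_ne z 0 with rfl | hz
      · exact ⟨0, fun l _ => by simp⟩
      · refine ⟨(-v.ord z).toNat, fun l hl => ?_⟩
        rw [v.val_le_one_iff (mul_ne_zero (pow_ne_zero _ (unif_ne_zero v)) hz),
          v.ord_mul (pow_ne_zero _ (unif_ne_zero v)) hz, v.ord_pow, ord_unif]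
        omega
    choose k hk using h1
    refine ⟨∑ i, ∑ j, k (M i j), fun i j => ?_⟩
    rw [Matrix.smul_apply, smul_eq_mul]
    apply hk
    exact (Finset.single_le_sum (f := fun j => k (M i j)) (fun _ _ => Nat.zero_le _)
      (Finset.mem_univ j)).trans (Finset.single_le_sum (f := fun i => ∑ j, k (M i j))
        (fun _ _ => Nat.zero_le _) (Finset.mem_univ i))
  choose l hl using fun v : Point 𝕜 K => key v (E.frame v)⁻¹.1
  let a : Point 𝕜 K → ℕ := fun v => if v.RegM (E.frame v)⁻¹.1 then 0 else l v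
  have ha : ∀ v : Point 𝕜 K, v.RegM ((unif v) ^ a v • (E.frame v)⁻¹.1) := by
    intro v
    by_cases h : v.RegM (E.frame v)⁻¹.1
    · simp only [a, if_pos h, pow_zero, one_smul]
      exact h
    · simp only [a, if_neg h]
      exact hl v
  refine ⟨⟨fun v => (Units.mk0 (unif v) (unif_ne_zero v)) ^ a v, E.finite.subset fun v hv => ?_⟩, ?_⟩
  · intro h
    apply hv
    have : a v = 0 := if_pos h.2
    rw [this, pow_zero, Units.val_one, map_one]
  · intro v s hs
    have h1 : s = (unif v) ^ a v • (((unif v) ^ a v)⁻¹ • s) := by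
      rw [smul_smul, mul_inv_cancel₀ (pow_ne_zero _ (unif_ne_zero v)), one_smul]
    have h2 : v.Reg (((unif v) ^ a v)⁻¹ • s) := by
      intro i
      have h3 : v.val (s i) ≤ v.val (((Units.mk0 (unif v) (unif_ne_zero v)) ^ a v : Kˣ) : K) := hs i
      rw [Units.val_pow_eq_pow_val, Units.val_mk0] at h3
      rw [Pi.smul_apply, smul_eq_mul, map_mul, map_inv₀, inv_mul_le_iff₀
        (zero_lt_iff.2 (v.val_ne_zero (pow_ne_zero _ (unif_ne_zero v)))), mul_one]
      exact h3
    rw [h1, mem_stalk_iff, Matrix.mulVec_smul, ← Matrix.smul_mulVec]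
    exact (ha v).mulVec h2

end Pool.Agent.TH185.C
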