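import Pool.Agent.TH185.C.Place

/-! Separating elements of a function field of one variable over an algebraically closed field. (The
proofs are those of `Pool/Agent/H525R3/FFp/Sep.lean` of the starting repository.) -/

set_option linter.unusedSectionVars false

open IntermediateField
open scoped KaehlerDifferential

namespace Pool.Agent.TH185.C

variable {𝕜 K : Type} [Field 𝕜] [IsAlgClosed 𝕜] [Field K] [Algebra 𝕜 K]

theorem exists_sep (hK : IsCurve 𝕜 K) :
    ∃ x : K, Transcendental 𝕜 x ∧ Algebra.IsSeparable 𝕜⟮x⟯ K := by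
  have h5 : Algebra.EssFiniteType 𝕜 K := IntermediateField.fg_top_iff.1 hK.fg
  obtain ⟨s, hs, hsep⟩ := exists_isTranscendenceBasis_and_isSeparable_of_perfectField 𝕜 K
  have hc := hs.lift_cardinalMk_eq_trdeg
  rw [hK.trdeg] at hc
  have hc1 : s.card = 1 := by
    simpa using hc
  obtain ⟨x, rfl⟩ := Finset.card_eq_one.1 hc1
  have hx : Transcendental 𝕜 x := by
    have h1 := hs.1.transcendental ⟨x, by simp⟩
    simpa using h1
  refine ⟨x, hx, ?_⟩
  have h2 : ((({x} : Finset K) : Set K)) = {x} := Finset.coe_singleton x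
  rwa [h2] at hsep

theorem D_mem_span {x : K} (r : 𝕜⟮x⟯) :
    KaehlerDifferential.D 𝕜 K (r : K) ∈ Submodule.span K {KaehlerDifferential.D 𝕜 K x} := by
  obtain ⟨r, hr⟩ := r
  change KaehlerDifferential.D 𝕜 K r ∈ _
  induction hr using IntermediateField.adjoin_induction with
  | mem y hy =>
    rw [Set.mem_singleton_iff] at hy
    subst hy
    exact Submodule.subset_span rfl
  | algebraMap c =>
    rw [Derivation.map_algebraMap]
    exact Submodule.zero_mem _
  | add a b _ _ ha hb => rw [map_add]; exact Submodule.add_mem _ ha hb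
  | mul a b _ _ ha hb =>
    rw [Derivation.leibniz]
    exact Submodule.add_mem _ (Submodule.smul_mem _ _ hb) (Submodule.smul_mem _ _ ha)
  | inv a _ ha =>
    rw [Derivation.leibniz_inv]
    exact Submodule.smul_mem _ _ ha

theorem span_D {x : K} (hsep : Algebra.IsSeparable 𝕜⟮x⟯ K) (ω : Ω[K⁄𝕜]) :
    ω ∈ Submodule.span K {KaehlerDifferential.D 𝕜 K x} := by
  have h1 : Algebra.FormallyUnramified 𝕜⟮x⟯ K := Algebra.FormallyUnramified.of_isSeparable _ _
  have h2 : Subsingleton (Ω[K⁄𝕜⟮x⟯]) := h1.subsingleton_kaehlerDifferential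
  have h3 : ω ∈ LinearMap.ker (KaehlerDifferential.map 𝕜 𝕜⟮x⟯ K K) := by
    rw [LinearMap.mem_ker]; exact Subsingleton.elim _ _
  rw [← KaehlerDifferential.range_mapBaseChange] at h3
  obtain ⟨t, rfl⟩ := h3
  induction t with
  | zero => rw [map_zero]; exact Submodule.zero_mem _
  | add a b ha hb => rw [map_add]; exact Submodule.add_mem _ ha hb
  | tmul a b =>
    rw [KaehlerDifferential.mapBaseChange_tmul]
    apply Submodule.smul_mem
    have hb : b ∈ Submodule.span 𝕜⟮x⟯ (Set.range (KaehlerDifferential.D 𝕜 𝕜⟮x⟯)) := by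
      rw [KaehlerDifferential.span_range_derivation]; trivial
    induction hb using Submodule.span_induction with
    | mem y hy =>
      obtain ⟨r, rfl⟩ := hy
      rw [KaehlerDifferential.map_D]
      exact D_mem_span r
    | zero => rw [map_zero]; exact Submodule.zero_mem _
    | add a b _ _ ha hb => rw [map_add]; exact Submodule.add_mem _ ha hb
    | smul c y _ hy =>
      rw [map_smul, ← algebraMap_smul K c]
      exact Submodule.smul_mem _ _ hy

theorem sep_of_D_ne (hK : IsCurve 𝕜 K) {f : K} (hf : KaehlerDifferential.D 𝕜 K f ≠ 0) :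
    Transcendental 𝕜 f ∧ Algebra.IsSeparable 𝕜⟮f⟯ K := by
  constructor
  · intro hal
    apply hf
    have h1 := PerfectField.separable_of_irreducible (minpoly.irreducible hal.isIntegral)
    have h2 := h1.aeval_derivative_ne_zero (minpoly.aeval 𝕜 f)
    have h3 := (KaehlerDifferential.D 𝕜 K).map_aeval (minpoly 𝕜 f) f
    rw [minpoly.aeval, map_zero] at h3
    exact (smul_eq_zero.1 h3.symm).resolve_left h2
  · obtain ⟨x, hx, hsep⟩ := exists_sep hK
    have h1 : ∃ c : K, KaehlerDifferential.D 𝕜 K x = c • KaehlerDifferential.D 𝕜 K f := by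
      have h2 := span_D hsep (KaehlerDifferential.D 𝕜 K f)
      obtain ⟨c, hc⟩ := Submodule.mem_span_singleton.1 h2
      have hc0 : c ≠ 0 := by
        rintro rfl
        rw [zero_smul] at hc
        exact hf hc.symm
      refine ⟨c⁻¹, ?_⟩
      rw [← hc, smul_smul, inv_mul_cancel₀ hc0, one_smul]
    obtain ⟨c, hc⟩ := h1
    have h3 : Subsingleton (Ω[K⁄𝕜⟮f⟯]) := by
      constructor
      intro a b
      have h4 : ∀ a : Ω[K⁄𝕜⟮f⟯], a = 0 := by
        intro a
        obtain ⟨ω, rfl⟩ := KaehlerDifferential.map_surjective 𝕜 𝕜⟮f⟯ K a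
        obtain ⟨d, rfl⟩ := Submodule.mem_span_singleton.1 (span_D hsep ω)
        rw [map_smul, hc, map_smul, KaehlerDifferential.map_D]
        have h5 : algebraMap K K f = algebraMap 𝕜⟮f⟯ K (AdjoinSimple.gen 𝕜 f) := by simp
        rw [h5, Derivation.map_algebraMap, smul_zero, smul_zero]
      rw [h4 a, h4 b]
    have h4 : Algebra.FormallyUnramified 𝕜⟮f⟯ K := ⟨h3⟩
    have h5 : Algebra.EssFiniteType 𝕜 K := IntermediateField.fg_top_iff.1 hK.fg
    have h6 : Algebra.EssFiniteType 𝕜⟮f⟯ K := Algebra.EssFiniteType.of_comp 𝕜 𝕜⟮f⟯ K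
    exact Algebra.FormallyUnramified.isSeparable _ _

theorem exists_D_ne (hK : IsCurve 𝕜 K) : ∃ x : K, KaehlerDifferential.D 𝕜 K x ≠ 0 := by
  obtain ⟨x, hx, hsep⟩ := exists_sep hK
  refine ⟨x, fun h0 => ?_⟩
  have h3 : Subsingleton (Ω[K⁄𝕜]) := by
    constructor
    intro a b
    obtain ⟨c, rfl⟩ := Submodule.mem_span_singleton.1 (span_D hsep a)
    obtain ⟨d, rfl⟩ := Submodule.mem_span_singleton.1 (span_D hsep b)
    rw [h0, smul_zero, smul_zero]
  have h4 : Algebra.FormallyUnramified 𝕜 K := ⟨h3⟩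
  have h5 : Algebra.EssFiniteType 𝕜 K := IntermediateField.fg_top_iff.1 hK.fg
  have h6 : Algebra.IsSeparable 𝕜 K := Algebra.FormallyUnramified.isSeparable _ _
  exact hx ((Algebra.IsSeparable.isSeparable 𝕜 x).isIntegral.isAlgebraic)

theorem D_inv_ne {x : K} (hx : KaehlerDifferential.D 𝕜 K x ≠ 0) :
    KaehlerDifferential.D 𝕜 K x⁻¹ ≠ 0 := by
  have hx0 : x ≠ 0 := by
    rintro rfl
    exact hx (map_zero _)
  intro h
  rw [Derivation.leibniz_inv] at h
  rcases smul_eq_zero.1 h with h1 | h1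
  · exact (neg_ne_zero.2 (pow_ne_zero 2 (inv_ne_zero hx0))) (by simpa using h1)
  · exact hx h1

theorem D_mul_ne {f x : K} (hf0 : f ≠ 0) (hf : KaehlerDifferential.D 𝕜 K f = 0)
    (hx : KaehlerDifferential.D 𝕜 K x ≠ 0) : KaehlerDifferential.D 𝕜 K (f * x) ≠ 0 := by
  rw [Derivation.leibniz, hf, smul_zero, add_zero]
  exact smul_ne_zero hf0 hx

end Pool.Agent.TH185.C
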