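import Pool.Agent.TH185.C.Count
import Pool.Agent.TH185.C.Sep

open scoped WithZero Polynomial IntermediateField
open WithZero IsDedekindDomain

set_option linter.unusedSectionVars false
set_option linter.style.haveILetI false

namespace Pool.Agent.TH185.C

variable {𝕜 K : Type} [Field 𝕜] [IsAlgClosed 𝕜] [Field K] [Algebra 𝕜 K]

/-- the data needed to apply the general results to `t` -/
theorem setup (hK : IsCurve 𝕜 K) {t : K} (hD : KaehlerDifferential.D 𝕜 K t ≠ 0) (C : Prop)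
    (h : ∀ (_ : Algebra 𝕜[X] K) (_ : IsScalarTower 𝕜 𝕜[X] K) (_ : algebraMap 𝕜[X] K Polynomial.X = t)
      (_ : ∀ p : 𝕜[X], algebraMap 𝕜[X] K p = Polynomial.aeval t p)
      (_ : Algebra 𝕜[X] 𝕜⟮t⟯) (_ : IsFractionRing 𝕜[X] 𝕜⟮t⟯) (_ : IsScalarTower 𝕜[X] 𝕜⟮t⟯ K)
      (_ : IsDedekindDomain (BB 𝕜 K)) (_ : IsFractionRing (BB 𝕜 K) K) (_ : Module.Finite 𝕜[X] (BB 𝕜 K))
      (_ : Module.IsTorsionFree 𝕜[X] (BB 𝕜 K)), C) : C := by
  obtain ⟨ht, hsep⟩ := sep_of_D_ne hK hD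
  have hfin := hK.finiteDimensional ht
  letI i1 : Algebra 𝕜[X] K := (Polynomial.aeval t).toAlgebra
  have hX : algebraMap 𝕜[X] K Polynomial.X = t := Polynomial.aeval_X t
  haveI i2 : IsScalarTower 𝕜 𝕜[X] K := IsScalarTower.of_algebraMap_eq fun c => by
    change _ = Polynomial.aeval t (Polynomial.C c)
    rw [Polynomial.aeval_C]
  letI i3 : Algebra 𝕜[X] 𝕜⟮t⟯ :=
    (((RatFunc.algEquivOfTranscendental t ht).toAlgHom.toRingHom).comp
      (algebraMap 𝕜[X] (RatFunc 𝕜))).toAlgebra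
  have hi3 : ∀ p : 𝕜[X], algebraMap 𝕜[X] 𝕜⟮t⟯ p =
      RatFunc.algEquivOfTranscendental t ht (algebraMap 𝕜[X] (RatFunc 𝕜) p) := fun p => rfl
  haveI i4 : IsFractionRing 𝕜[X] 𝕜⟮t⟯ := by
    let e : RatFunc 𝕜 ≃ₐ[𝕜[X]] 𝕜⟮t⟯ :=
      AlgEquiv.ofRingEquiv (f := (RatFunc.algEquivOfTranscendental t ht).toRingEquiv) fun p => rfl
    exact IsLocalization.isLocalization_of_algEquiv (nonZeroDivisors 𝕜[X]) e
  haveI i5 : IsScalarTower 𝕜[X] 𝕜⟮t⟯ K := IsScalarTower.of_algebraMap_eq fun p => by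
    rw [hi3, RatFunc.algEquivOfTranscendental_algebraMap]
    change Polynomial.aeval t p = _
    rw [← Polynomial.aeval_algebraMap_apply]
    rfl
  haveI i6 := BB_dedekind (𝕜 := 𝕜) (K := K) 𝕜⟮t⟯
  haveI i7 := BB_fraction (𝕜 := 𝕜) (K := K) 𝕜⟮t⟯
  haveI i8 := BB_finite (𝕜 := 𝕜) (K := K) 𝕜⟮t⟯
  have hinj : Function.Injective (algebraMap 𝕜[X] K) := transcendental_iff_injective.1 ht
  haveI i10 : FaithfulSMul 𝕜[X] K := (faithfulSMul_iff_algebraMap_injective _ _).2 hinj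
  haveI i9 : Module.IsTorsionFree 𝕜[X] (BB 𝕜 K) := inferInstance
  exact h i1 i2 hX (fun p => rfl) i3 i4 i5 i6 i7 i8 i9

theorem ne_zero_of_transcendental {t : K} (ht : Transcendental 𝕜 t) : t ≠ 0 := by
  rintro rfl
  exact ht isAlgebraic_zero

/-- the number of zeros of a nonconstant rational function -/
theorem zero_count_aux (hK : IsCurve 𝕜 K) {t : K} (ht : KaehlerDifferential.D 𝕜 K t ≠ 0) :
    ∃ S : Finset (Point 𝕜 K), (∀ v, v ∈ S ↔ v.val t < 1) ∧
      ∑ v ∈ S, v.ord t = Module.finrank 𝕜⟮t⟯ K := by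
  refine setup hK ht _ ?_
  intro i1 i2 hX _ i3 i4 i5 i6 i7 i8 i9
  have := count_sum (K := K) 𝕜⟮t⟯ (by
    rw [hX]; exact ne_zero_of_transcendental (sep_of_D_ne hK ht).1)
  rw [hX] at this
  exact this

theorem exists_residue_sep (hK : IsCurve 𝕜 K) {t : K}
    (ht : KaehlerDifferential.D 𝕜 K t ≠ 0) (v : Point 𝕜 K)
    (hv : v.val t ≤ 1) : ∃ a : 𝕜, v.val (t - algebraMap 𝕜 K a) < 1 := by
  refine setup hK ht _ ?_
  intro i1 i2 hX hae i3 i4 i5 i6 i7 i8 i9
  rw [← hX] at hv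
  have h1 : (under v hv).asIdeal.under 𝕜[X] ≠ ⊥ := Ideal.under_ne_bot _ (under v hv).ne_bot
  have h2 : ((under v hv).asIdeal.under 𝕜[X]).IsPrime := (under v hv).isPrime.comap _
  obtain ⟨q, hq⟩ := (IsPrincipalIdealRing.principal ((under v hv).asIdeal.under 𝕜[X])).principal
  have hq0 : q ≠ 0 := by
    rintro rfl
    apply h1
    rw [hq]
    simp
  have hqp : Prime q := by
    rw [hq] at h2
    exact (Ideal.span_singleton_prime hq0).1 h2
  obtain ⟨a, ha⟩ := IsAlgClosed.exists_root q (fun h => by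
    have := Polynomial.eq_C_of_degree_eq_zero h
    exact hqp.not_isUnit (by rw [this]; exact Polynomial.isUnit_C.2 (IsUnit.mk0 _ (by
      intro h0; rw [h0, map_zero] at this; exact hq0 this))))
  refine ⟨a, ?_⟩
  have h3 : (Polynomial.X - Polynomial.C a) ∣ q := Polynomial.dvd_iff_isRoot.2 ha
  have h4 : q ∣ (Polynomial.X - Polynomial.C a) :=
    ((Polynomial.irreducible_X_sub_C a).associated_of_dvd hqp.irreducible h3).symm.dvd
  have h5 : (Polynomial.X - Polynomial.C a) ∈ (under v hv).asIdeal.under 𝕜[X] := by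
    rw [hq]
    exact Ideal.mem_span_singleton.2 h4
  rw [Ideal.mem_comap, mem_under] at h5
  have h6 : ((algebraMap 𝕜[X] (BB 𝕜 K) (Polynomial.X - Polynomial.C a) : BB 𝕜 K) : K) =
      t - algebraMap 𝕜 K a := by
    change algebraMap (BB 𝕜 K) K (algebraMap 𝕜[X] (BB 𝕜 K) (Polynomial.X - Polynomial.C a)) = _
    rw [← IsScalarTower.algebraMap_apply 𝕜[X] (BB 𝕜 K) K, hae]
    simp
  rwa [h6] at h5

/-- elements of `K` which are algebraic over `𝕜` are constant -/
theorem exists_const {z : K} (hz : ¬ Transcendental 𝕜 z) : ∃ c : 𝕜, z = algebraMap 𝕜 K c := by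
  have h1 : IsAlgebraic 𝕜 z := not_not.1 hz
  have h2 : IsIntegral 𝕜 z := h1.isIntegral
  have h3 : (minpoly 𝕜 z).degree = 1 :=
    IsAlgClosed.degree_eq_one_of_irreducible 𝕜 (minpoly.irreducible h2)
  obtain ⟨c, hc⟩ := minpoly.mem_range_of_degree_eq_one 𝕜 z h3
  exact ⟨c, hc.symm⟩

theorem finite_ord_pos_sep (hK : IsCurve 𝕜 K) {z : K} (hz : KaehlerDifferential.D 𝕜 K z ≠ 0) :
    {v : Point 𝕜 K | 0 < v.ord z}.Finite := by
  obtain ⟨S, hS, -⟩ := zero_count_aux hK hz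
  refine S.finite_toSet.subset fun v hv => ?_
  rw [Finset.mem_coe, hS, v.val_lt_one_iff (ne_zero_of_transcendental (sep_of_D_ne hK hz).1)]
  exact hv

theorem finite_ord_sep (hK : IsCurve 𝕜 K) {z : K} (hz : KaehlerDifferential.D 𝕜 K z ≠ 0) :
    {v : Point 𝕜 K | v.ord z ≠ 0}.Finite := by
  refine ((finite_ord_pos_sep hK hz).union (finite_ord_pos_sep hK (D_inv_ne hz))).subset
    fun v hv => ?_
  rcases lt_or_gt_of_ne (show v.ord z ≠ 0 from hv) with h | h
  · right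
    rw [Set.mem_ofPred_eq, v.ord_inv]
    omega
  · exact Or.inl h

theorem finite_ord (hK : IsCurve 𝕜 K) (z : K) : {v : Point 𝕜 K | v.ord z ≠ 0}.Finite := by
  by_cases hz0 : z = 0
  · subst hz0
    convert Set.finite_empty
    ext v
    simp [v.ord_zero]
  by_cases hz : KaehlerDifferential.D 𝕜 K z = 0
  · obtain ⟨x, hx⟩ := exists_D_ne hK
    have hx0 : x ≠ 0 := by
      rintro rfl
      exact hx (map_zero _)
    refine ((finite_ord_sep hK (D_mul_ne hz0 hz hx)).union (finite_ord_sep hK hx)).subset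
      fun v hv => ?_
    by_contra hcon
    simp only [Set.mem_union, Set.mem_ofPred_eq, not_or, not_not] at hcon
    rw [v.ord_mul hz0 hx0] at hcon
    exact hv (by omega)
  · exact finite_ord_sep hK hz

theorem finite_ord_pos (hK : IsCurve 𝕜 K) (z : K) : {v : Point 𝕜 K | 0 < v.ord z}.Finite :=
  (finite_ord hK z).subset fun v hv => (ne_of_gt hv : v.ord z ≠ 0)

theorem finite_ord_neg (hK : IsCurve 𝕜 K) (z : K) : {v : Point 𝕜 K | v.ord z < 0}.Finite :=
  (finite_ord hK z).subset fun v hv => (ne_of_lt hv : v.ord z ≠ 0)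

/-- the degree of the divisor of zeros -/
noncomputable def degZ (z : K) : ℤ := ∑ᶠ v : Point 𝕜 K, max (v.ord z) 0

theorem degZ_eq (hK : IsCurve 𝕜 K) {t : K} (hD : KaehlerDifferential.D 𝕜 K t ≠ 0) :
    degZ (𝕜 := 𝕜) t = Module.finrank 𝕜⟮t⟯ K := by
  have ht := (sep_of_D_ne hK hD).1
  obtain ⟨S, hS, hsum⟩ := zero_count_aux hK hD
  have h0 := ne_zero_of_transcendental ht
  rw [degZ, finsum_eq_sum_of_support_subset (s := S), ← hsum]
  · refine Finset.sum_congr rfl fun v hv => ?_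
    rw [hS, v.val_lt_one_iff h0] at hv
    exact max_eq_left hv.le
  · intro v hv
    rw [Finset.mem_coe, hS, v.val_lt_one_iff h0]
    rw [Function.mem_support] at hv
    by_contra hcon
    exact hv (max_eq_right (not_lt.1 hcon))

theorem transcendental_inv {t : K} (ht : Transcendental 𝕜 t) : Transcendental 𝕜 t⁻¹ := by
  intro h
  apply ht
  have := h.inv
  rwa [inv_inv] at this

theorem adjoin_inv (t : K) : 𝕜⟮t⁻¹⟯ = 𝕜⟮t⟯ := by
  apply le_antisymm
  · rw [IntermediateField.adjoin_simple_le_iff]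
    exact inv_mem (IntermediateField.mem_adjoin_simple_self 𝕜 t)
  · rw [IntermediateField.adjoin_simple_le_iff]
    have := inv_mem (IntermediateField.mem_adjoin_simple_self 𝕜 t⁻¹)
    rwa [inv_inv] at this

theorem sum_ord_sep (hK : IsCurve 𝕜 K) {z : K} (hz : KaehlerDifferential.D 𝕜 K z ≠ 0) :
    ∑ᶠ v : Point 𝕜 K, v.ord z = 0 := by
  have h1 : ∀ v : Point 𝕜 K, v.ord z = max (v.ord z) 0 - max (v.ord z⁻¹) 0 := fun v => by
    rw [v.ord_inv]
    omega
  rw [finsum_congr h1, finsum_sub_distrib]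
  · change degZ z - degZ z⁻¹ = 0
    rw [degZ_eq hK hz, degZ_eq hK (D_inv_ne hz), adjoin_inv, sub_self]
  · refine (finite_ord_pos hK z).subset fun v hv => ?_
    rw [Function.mem_support] at hv
    change 0 < v.ord z
    omega
  · refine (finite_ord_pos hK z⁻¹).subset fun v hv => ?_
    rw [Function.mem_support] at hv
    change 0 < v.ord z⁻¹
    omega

theorem sum_ord (hK : IsCurve 𝕜 K) (z : K) : ∑ᶠ v : Point 𝕜 K, v.ord z = 0 := by
  by_cases hz0 : z = 0
  · subst hz0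
    simp [Point.ord_zero]
  by_cases hz : KaehlerDifferential.D 𝕜 K z = 0
  · obtain ⟨x, hx⟩ := exists_D_ne hK
    have hx0 : x ≠ 0 := by
      rintro rfl
      exact hx (map_zero _)
    have h1 := sum_ord_sep hK (D_mul_ne hz0 hz hx)
    have h2 := sum_ord_sep hK hx
    have h3 : ∀ v : Point 𝕜 K, v.ord (z * x) = v.ord z + v.ord x := fun v => v.ord_mul hz0 hx0
    rw [finsum_congr h3, finsum_add_distrib (finite_ord hK z) (finite_ord hK x), h2, add_zero] at h1
    exact h1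
  · exact sum_ord_sep hK hz

theorem exists_residue (hK : IsCurve 𝕜 K) (v : Point 𝕜 K) {t : K}
    (hv : v.val t ≤ 1) : ∃ a : 𝕜, v.val (t - algebraMap 𝕜 K a) < 1 := by
  by_cases ht : KaehlerDifferential.D 𝕜 K t = 0
  · obtain ⟨x, hx, hxv⟩ : ∃ x : K, KaehlerDifferential.D 𝕜 K x ≠ 0 ∧ v.val x ≤ 1 := by
      obtain ⟨x, hx⟩ := exists_D_ne hK
      rcases le_total (v.val x) 1 with h | h
      · exact ⟨x, hx, h⟩
      · refine ⟨x⁻¹, D_inv_ne hx, ?_⟩
        rw [map_inv₀]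
        exact inv_le_one_of_one_le₀ h
    obtain ⟨a, ha⟩ := exists_residue_sep hK (t := t + x) (by
      rw [map_add, ht, zero_add]; exact hx) v (Valuation.map_add_le _ hv hxv)
    obtain ⟨b, hb⟩ := exists_residue_sep hK hx v hxv
    refine ⟨a - b, ?_⟩
    have h1 : t - algebraMap 𝕜 K (a - b) =
        (t + x - algebraMap 𝕜 K a) - (x - algebraMap 𝕜 K b) := by
      rw [map_sub]
      ring
    rw [h1]
    exact (Valuation.map_sub _ _ _).trans_lt (max_lt ha hb)
  · exact exists_residue_sep hK ht v hv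

theorem point_nonempty (hK : IsCurve 𝕜 K) : Nonempty (Point 𝕜 K) := by
  obtain ⟨t, hD⟩ := exists_D_ne hK
  have ht := (sep_of_D_ne hK hD).1
  obtain ⟨S, hS, hsum⟩ := zero_count_aux hK hD
  have h3 := hK.finiteDimensional ht
  have h4 : 0 < Module.finrank 𝕜⟮t⟯ K := Module.finrank_pos
  rcases S.eq_empty_or_nonempty with rfl | ⟨v, -⟩
  · rw [Finset.sum_empty] at hsum
    omega
  · exact ⟨v⟩

end Pool.Agent.TH185.C
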