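import Pool.Agent.TH185.C.BDefs
import Pool.Agent.TH185.C.BundleLemmas

open scoped WithZero Matrix
open WithZero

set_option linter.unusedSectionVars false

namespace Pool.Agent.TH185.C


variable {𝕜 K : Type} [Field 𝕜] [IsAlgClosed 𝕜] [Field K] [Algebra 𝕜 K] {n m : ℕ}

theorem exists_res (hK : IsCurve 𝕜 K) (v : Point 𝕜 K) {z : K} (hz : v.val z ≤ 1) :
    ∃ c : 𝕜, v.val (z - algebraMap 𝕜 K c) < 1 := by
  exact exists_residue hK v hz

theorem res_unique (v : Point 𝕜 K) {z : K} {c d : 𝕜} (hc : v.val (z - algebraMap 𝕜 K c) < 1)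
    (hd : v.val (z - algebraMap 𝕜 K d) < 1) : c = d := by
  by_contra h
  have h1 : v.val (algebraMap 𝕜 K (c - d)) = 1 := v.const _ (sub_ne_zero.2 h)
  have h2 : algebraMap 𝕜 K (c - d) = (z - algebraMap 𝕜 K d) - (z - algebraMap 𝕜 K c) := by
    rw [map_sub]; ring
  rw [h2] at h1
  exact (ne_of_lt (Valuation.map_sub_lt _ hd hc)) h1

/-- the residue -/
noncomputable def resFun (hK : IsCurve 𝕜 K) (v : Point 𝕜 K) (z : v.val.integer) : 𝕜 :=
  (exists_res hK v z.2).choose

theorem resFun_spec (hK : IsCurve 𝕜 K) (v : Point 𝕜 K) (z : v.val.integer) :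
    v.val ((z : K) - algebraMap 𝕜 K (resFun hK v z)) < 1 := (exists_res hK v z.2).choose_spec

/-- the residue map -/
noncomputable def resHom (hK : IsCurve 𝕜 K) (v : Point 𝕜 K) : v.val.integer →+* 𝕜 where
  toFun z := resFun hK v z
  map_one' := res_unique v (resFun_spec hK v 1) (by simp)
  map_zero' := res_unique v (resFun_spec hK v 0) (by simp)
  map_add' x y := by
    refine res_unique v (resFun_spec hK v (x + y)) ?_
    have h : ((x + y : v.val.integer) : K) - algebraMap 𝕜 K (resFun hK v x +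
        resFun hK v y) = (x - algebraMap 𝕜 K (resFun hK v x)) +
        (y - algebraMap 𝕜 K (resFun hK v y)) := by
      rw [map_add]; push_cast; ring
    rw [h]
    exact Valuation.map_add_lt _ (resFun_spec hK v x) (resFun_spec hK v y)
  map_mul' x y := by
    refine res_unique v (resFun_spec hK v (x * y)) ?_
    have h : ((x * y : v.val.integer) : K) - algebraMap 𝕜 K (resFun hK v x *
        resFun hK v y) = (x - algebraMap 𝕜 K (resFun hK v x)) * y +
        algebraMap 𝕜 K (resFun hK v x) *
        (y - algebraMap 𝕜 K (resFun hK v y)) := by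
      rw [map_mul]; push_cast; ring
    rw [h]
    refine Valuation.map_add_lt _ ?_ ?_
    · rw [map_mul]
      exact (mul_le_of_le_one_right' y.2).trans_lt (resFun_spec hK v x)
    · rw [map_mul]
      exact (mul_le_of_le_one_left' (v.const_le _)).trans_lt (resFun_spec hK v y)

theorem resHom_spec (hK : IsCurve 𝕜 K) (v : Point 𝕜 K) (z : v.val.integer) :
    v.val ((z : K) - algebraMap 𝕜 K (resHom hK v z)) < 1 := resFun_spec hK v z

theorem resHom_eq_zero_iff (hK : IsCurve 𝕜 K) (v : Point 𝕜 K) (z : v.val.integer) :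
    resHom hK v z = 0 ↔ v.val (z : K) < 1 := by
  constructor
  · intro h
    have := resHom_spec hK v z
    rwa [h, map_zero, sub_zero] at this
  · intro h
    exact res_unique v (resHom_spec hK v z) (by rwa [map_zero, sub_zero])

/-- the constants, as elements of the valuation ring -/
theorem resHom_const (hK : IsCurve 𝕜 K) (v : Point 𝕜 K) (c : 𝕜) :
    resHom hK v ⟨algebraMap 𝕜 K c, v.const_le c⟩ = c :=
  res_unique v (resHom_spec hK v _) (by simp)

/-- a uniformizer -/
noncomputable def unif (v : Point 𝕜 K) : K := (v.surj (exp (-1))).choose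

theorem val_unif (v : Point 𝕜 K) : v.val (unif v) = exp (-1) := (v.surj (exp (-1))).choose_spec

theorem unif_ne_zero (v : Point 𝕜 K) : unif v ≠ 0 := by
  intro h
  have := val_unif v
  rw [h, map_zero] at this
  exact exp_ne_zero this.symm

theorem ord_unif (v : Point 𝕜 K) : v.ord (unif v) = 1 := by
  rw [Point.ord, val_unif, log_exp, neg_neg]

theorem val_lt_one_iff (v : Point 𝕜 K) (z : K) : v.val z < 1 ↔ v.val z ≤ v.val (unif v) := by
  rcases eq_or_ne z 0 with rfl | hz
  · simp
  · rw [v.val_lt_one_iff hz, v.val_le_val_iff hz (unif_ne_zero v), ord_unif]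
    omega

theorem val_unif_lt (v : Point 𝕜 K) : v.val (unif v) < 1 := (val_lt_one_iff v _).2 le_rfl

/-! ### elementary modifications of lattices -/

/-- the matrix of an elementary modification -/
noncomputable def modMat (v : Point 𝕜 K) (c : Fin n → 𝕜) (i : Fin n) : Matrix (Fin n) (Fin n) K :=
  (1 : Matrix (Fin n) (Fin n) K).updateRow i fun j => (unif v)⁻¹ * algebraMap 𝕜 K (c j)

theorem modMat_det (v : Point 𝕜 K) (c : Fin n → 𝕜) (i : Fin n) :
    (modMat v c i).det = (unif v)⁻¹ * algebraMap 𝕜 K (c i) := by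
  have h := Matrix.cramer_transpose_apply (1 : Matrix (Fin n) (Fin n) K)
    (fun j => (unif v)⁻¹ * algebraMap 𝕜 K (c j)) i
  rw [modMat, ← h, Matrix.transpose_one, Matrix.cramer_one]
  rfl

/-- the matrix of an elementary modification, as an element of `GL` -/
noncomputable def modGL (v : Point 𝕜 K) (c : Fin n → 𝕜) (i : Fin n) (hi : c i ≠ 0) :
    GL (Fin n) K :=
  Matrix.GeneralLinearGroup.mkOfDetNeZero (modMat v c i) (by
    rw [modMat_det]
    exact mul_ne_zero (inv_ne_zero (unif_ne_zero v)) ((map_ne_zero _).2 hi))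

theorem modGL_mulVec (v : Point 𝕜 K) (c : Fin n → 𝕜) (i : Fin n) (hi : c i ≠ 0) (w : Fin n → K)
    (j : Fin n) : ((modGL v c i hi).1 *ᵥ w) j =
      if j = i then (unif v)⁻¹ * ∑ l, algebraMap 𝕜 K (c l) * w l else w j := by
  change (modMat v c i *ᵥ w) j = _
  rw [modMat]
  split_ifs with h
  · subst h
    rw [Matrix.mulVec, dotProduct, Finset.mul_sum]
    refine Finset.sum_congr rfl fun l _ => ?_
    rw [Matrix.updateRow_self, mul_assoc]
  · rw [Matrix.mulVec, dotProduct, Finset.sum_eq_single j]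
    · rw [Matrix.updateRow_ne h, Matrix.one_apply_eq, one_mul]
    · intro b _ hb
      rw [Matrix.updateRow_ne h, Matrix.one_apply_ne (Ne.symm hb), zero_mul]
    · simp

theorem modGL_reg_iff (v : Point 𝕜 K) (c : Fin n → 𝕜) (i : Fin n) (hi : c i ≠ 0) (w : Fin n → K) :
    v.Reg ((modGL v c i hi).1 *ᵥ w) ↔
      v.Reg w ∧ v.val (∑ l, algebraMap 𝕜 K (c l) * w l) < 1 := by
  have hu := val_unif_lt v
  have hu0 : 0 < v.val (unif v) := zero_lt_iff.2 (v.val_ne_zero (unif_ne_zero v))
  have key : ∀ z : K, v.val ((unif v)⁻¹ * z) ≤ 1 ↔ v.val z < 1 := by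
    intro z
    rw [val_lt_one_iff, map_mul, map_inv₀, inv_mul_le_iff₀ hu0, mul_one]
  constructor
  · intro h
    have h1 : v.val (∑ l, algebraMap 𝕜 K (c l) * w l) < 1 := by
      have := h i
      rw [modGL_mulVec, if_pos rfl, key] at this
      exact this
    have h2 : ∀ j, j ≠ i → v.val (w j) ≤ 1 := by
      intro j hj
      have := h j
      rwa [modGL_mulVec, if_neg hj] at this
    refine ⟨fun j => ?_, h1⟩
    rcases eq_or_ne j i with rfl | hj
    · have h3 : w j = algebraMap 𝕜 K (c j)⁻¹ * ((∑ l, algebraMap 𝕜 K (c l) * w l) -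
          ∑ l ∈ Finset.univ.erase j, algebraMap 𝕜 K (c l) * w l) := by
        rw [← Finset.add_sum_erase _ _ (Finset.mem_univ j), add_sub_cancel_right, ← mul_assoc,
          ← map_mul, inv_mul_cancel₀ hi, map_one, one_mul]
      rw [h3, map_mul]
      refine mul_le_one' (v.const_le _) (Valuation.map_sub_le _ h1.le ?_)
      refine Valuation.map_sum_le _ fun l hl => ?_
      rw [map_mul]
      exact mul_le_one' (v.const_le _) (h2 l (Finset.ne_of_mem_erase hl))
    · exact h2 j hj
  · rintro ⟨h1, h2⟩ j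
    rw [modGL_mulVec]
    split_ifs with hj
    · rwa [key]
    · exact h1 j

/-- the integral matrices with determinant in the maximal ideal have a singular reduction -/
theorem exists_singular (hK : IsCurve 𝕜 K) (v : Point 𝕜 K) (M : Matrix (Fin n) (Fin n) K)
    (hM : v.RegM M) (hdet : v.val M.det < 1) : ∃ c : Fin n → 𝕜, c ≠ 0 ∧
      ∀ w : Fin n → K, v.Reg w → v.val (∑ l, algebraMap 𝕜 K (c l) * (M *ᵥ w) l) < 1 := by
  let M' : Matrix (Fin n) (Fin n) v.val.integer := fun i j => ⟨M i j, hM i j⟩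
  have h1 : (M'.det : K) = M.det := by
    have := RingHom.map_det v.val.integer.subtype M'
    exact this
  have h2 : (M'.map (resHom hK v)).det = 0 := by
    rw [← RingHom.mapMatrix_apply, ← RingHom.map_det, resHom_eq_zero_iff, h1]
    exact hdet
  obtain ⟨c, hc0, hc⟩ := Matrix.exists_vecMul_eq_zero_iff.2 h2
  refine ⟨c, hc0, fun w hw => ?_⟩
  have h3 : ∀ j, v.val (∑ l, algebraMap 𝕜 K (c l) * M l j) < 1 := by
    intro j
    have h4 := congrFun hc j
    have h5 : resHom hK v (∑ l, (⟨algebraMap 𝕜 K (c l), v.const_le _⟩ : v.val.integer) * M' l j) =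
        0 := by
      rw [map_sum]
      refine Eq.trans ?_ h4
      rw [Matrix.vecMul, dotProduct]
      refine Finset.sum_congr rfl fun l _ => ?_
      rw [map_mul, resHom_const]
      rfl
    rw [resHom_eq_zero_iff] at h5
    convert h5
    push_cast
    rfl
  have h6 : ∑ l, algebraMap 𝕜 K (c l) * (M *ᵥ w) l = ∑ j, (∑ l, algebraMap 𝕜 K (c l) * M l j) * w j := by
    simp only [Matrix.mulVec, dotProduct, Finset.mul_sum, Finset.sum_mul]
    rw [Finset.sum_comm]
    exact Finset.sum_congr rfl fun _ _ => Finset.sum_congr rfl fun _ _ => by ring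
  rw [h6]
  refine Valuation.map_sum_lt _ one_ne_zero fun j _ => ?_
  rw [map_mul]
  exact (mul_le_of_le_one_right' (hw j)).trans_lt (h3 j)

end Pool.Agent.TH185.C
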